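import Pool.Agent.Y194.MU.Ram

/-!
# Comparison of local conditions, and the inequality with few ramified places
-/

set_option autoImplicit false

open IsDedekindDomain NumberField Matrix Filter Topology

namespace Pool.Agent.Y194.MU

open Finset
open Pool.Agent.Y194.TS

section cmp

variable {U : Type} [Group U] [TopologicalSpace U]

lemma char_one {q : ℕ} {J : Set U} {f : U → ZMod q} (hf : Char J f) : f 1 = 0 := by
  have h := hf.1 1 1
  rw [mul_one] at h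
  exact left_eq_add.1 h

lemma char_inv {q : ℕ} {J : Set U} {f : U → ZMod q} (hf : Char J f) (x : U) : f x⁻¹ = - f x := by
  have h := hf.1 x x⁻¹
  rw [mul_inv_cancel, char_one hf] at h
  exact (neg_eq_of_add_eq_zero_right h.symm).symm

/-- the homomorphisms killing `J` -/
def CG (q : ℕ) (J : Set U) : AddSubgroup (U → ZMod q) where
  carrier := {f | Char J f}
  zero_mem' := ⟨fun _ _ => (add_zero (0 : ZMod q)).symm, IsLocallyConstant.const 0, fun _ _ => rfl⟩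
  add_mem' := by
    rintro f g ⟨a1, a2, a3⟩ ⟨b1, b2, b3⟩
    refine ⟨fun x y => ?_, a2.add b2, fun j hj => ?_⟩
    · show f (x * y) + g (x * y) = f x + g x + (f y + g y)
      rw [a1, b1]
      abel
    · show f j + g j = 0
      rw [a3 j hj, b3 j hj, add_zero]
  neg_mem' := by
    rintro f ⟨a1, a2, a3⟩
    refine ⟨fun x y => ?_, a2.neg, fun j hj => ?_⟩
    · show - f (x * y) = - f x + - f y
      rw [a1]
      abel
    · show - f j = 0
      rw [a3 j hj, neg_zero]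

theorem card_cmp {q : ℕ} [NeZero q] {J₁ J₂ : Set U} (V : Subgroup U) [Finite (U ⧸ V)]
    {R : Type} [Finite R] (D : R → Subgroup U) (hD : ∀ r, ∀ x ∈ D r, x ∈ V → x ∈ J₁)
    (h12 : J₁ ⊆ J₂) (hcov : ∀ j ∈ J₂, j ∈ J₁ ∨ ∃ r, ∃ u : U, u⁻¹ * j * u ∈ D r)
    (hfin : Finite (CG q J₂)) :
    Nat.card (CG q J₁) ≠ 0 ∧ Nat.card (CG q J₂) ≤ Nat.card (CG q J₁) ∧
      Nat.card (CG q J₁) ≤ Nat.card (CG q J₂) * q ^ (Nat.card R * Nat.card (U ⧸ V)) := by
  classical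
  let s : R × (U ⧸ V) → U := fun rc =>
    if h : ∃ x ∈ D rc.1, (x : U ⧸ V) = rc.2 then h.choose else 1
  have hs : ∀ r, ∀ x ∈ D r, s (r, (x : U ⧸ V)) ∈ D r ∧ (s (r, (x : U ⧸ V)) : U ⧸ V) = x := by
    intro r x hx
    have h : ∃ y ∈ D r, (y : U ⧸ V) = (x : U ⧸ V) := ⟨x, hx, rfl⟩
    have h1 : s (r, (x : U ⧸ V)) = h.choose := dif_pos h
    rw [h1]
    exact h.choose_spec
  let Φ : CG q J₁ →+ (R × (U ⧸ V) → ZMod q) :=
    { toFun := fun f rc => f.1 (s rc)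
      map_zero' := rfl
      map_add' := fun _ _ => rfl }
  have hker : ∀ f : CG q J₁, f ∈ Φ.ker → f.1 ∈ CG q J₂ := by
    rintro ⟨f, hf⟩ h
    have h0 : ∀ rc, f (s rc) = 0 := fun rc => congrFun (AddMonoidHom.mem_ker.1 h) rc
    refine ⟨hf.1, hf.2.1, fun j hj => ?_⟩
    rcases hcov j hj with h1 | ⟨r, u, h1⟩
    · exact hf.2.2 j h1
    · have h2 := hs r _ h1
      have h3 : (s (r, ((u⁻¹ * j * u : U) : U ⧸ V)))⁻¹ * (u⁻¹ * j * u) ∈ V :=
        QuotientGroup.eq.1 h2.2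
      have h4 := hf.2.2 _ (hD r _ ((D r).mul_mem ((D r).inv_mem h2.1) h1) h3)
      rw [hf.1, char_inv hf, h0, neg_zero, zero_add, hf.1, hf.1, char_inv hf] at h4
      show f j = 0
      calc f j = - f u + f j + f u := by abel
        _ = 0 := h4
  have hle : Nat.card Φ.ker ≤ Nat.card (CG q J₂) := by
    refine Nat.card_le_card_of_injective
      (fun f : Φ.ker => (⟨f.1.1, hker f.1 f.2⟩ : CG q J₂)) fun f g h => ?_
    exact Subtype.ext (Subtype.ext (congrArg (fun x : CG q J₂ => x.1) h))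
  have hkf : Finite Φ.ker := Finite.of_injective
      (fun f : Φ.ker => (⟨f.1.1, hker f.1 f.2⟩ : CG q J₂)) fun f g h =>
        Subtype.ext (Subtype.ext (congrArg (fun x : CG q J₂ => x.1) h))
  have hc : Nat.card Φ.ker * Nat.card Φ.range = Nat.card (CG q J₁) := by
    rw [← AddSubgroup.index_ker]
    exact AddSubgroup.card_mul_index _
  have hne : Nat.card (CG q J₁) ≠ 0 := by
    rw [← hc]
    exact (Nat.mul_pos Nat.card_pos Nat.card_pos).ne'
  have hfin1 : Finite (CG q J₁) := Nat.finite_of_card_ne_zero hne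
  have h21 : CG q J₂ ≤ CG q J₁ := fun f hf => ⟨hf.1, hf.2.1, fun j hj => hf.2.2 j (h12 hj)⟩
  refine ⟨hne, Nat.card_le_card_of_injective (AddSubgroup.inclusion h21)
    (AddSubgroup.inclusion_injective h21), ?_⟩
  rw [← hc]
  refine Nat.mul_le_mul hle ?_
  have h5 : Nat.card (R × (U ⧸ V) → ZMod q) = q ^ (Nat.card R * Nat.card (U ⧸ V)) := by
    rw [Nat.card_fun, Nat.card_prod, Nat.card_zmod]
  rw [← h5]
  exact Nat.card_le_card_of_injective (Subtype.val : Φ.range → _) Subtype.val_injective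

end cmp

section level

variable {K Ω : Type} [Field K] [Field Ω] [Algebra K Ω] {p : ℕ} [hp : Fact p.Prime]

/-- the homomorphisms `U → ℤ/p^k` killing `J` -/
abbrev Ch (p : ℕ) (J : Set (Ω ≃ₐ[K] Ω)) (U : Subgroup (Ω ≃ₐ[K] Ω)) (k : ℕ) : Type :=
  {f : U → ZMod (p ^ k) // Char {σ : U | (σ : Ω ≃ₐ[K] Ω) ∈ J} f}

lemma one_red (k : ℕ) {X : Type} [Group X] (σ : X) : (((1 : X →* GL (Fin 1) ℤ_[p]) σ :
    GL (Fin 1) ℤ_[p]) : Matrix (Fin 1) (Fin 1) ℤ_[p]).map (PadicInt.toZModPow k) = 1 := by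
  rw [MonoidHom.one_apply, Units.val_one, Matrix.map_one _ (map_zero _) (map_one _)]

lemma transfer_gen (J : Set (Ω ≃ₐ[K] Ω)) {U V : Subgroup (Ω ≃ₐ[K] Ω)} (h : V ≤ U) (k : ℕ) :
    Nat.card {c : V.subgroupOf U → Fin 1 → ZMod (p ^ k) //
      (∀ x y, c (x * y) = c x + rd (1 : U →* GL (Fin 1) ℤ_[p]) k (x : U) *ᵥ c y) ∧
        IsLocallyConstant c ∧
        ∀ j ∈ ((↑) ⁻¹' {σ : U | (σ : Ω ≃ₐ[K] Ω) ∈ J} : Set (V.subgroupOf U)),
          c j = 0} = Nat.card (Ch p J V k) := by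
  rw [← card_char (q := p ^ k) (fun σ : V => (((1 : V →* GL (Fin 1) ℤ_[p]) σ :
    GL (Fin 1) ℤ_[p]) : Matrix (Fin 1) (Fin 1) ℤ_[p]).map (PadicInt.toZModPow k))
      (fun σ => one_red k σ)]
  have hc1 : Continuous (fun x : V => (⟨⟨x.1, h x.2⟩, x.2⟩ : V.subgroupOf U)) :=
    (continuous_subtype_val.subtype_mk _).subtype_mk _
  have hc2 : Continuous (fun x : V.subgroupOf U => (⟨((x : U) : Ω ≃ₐ[K] Ω), x.2⟩ : V)) :=
    (continuous_subtype_val.comp continuous_subtype_val).subtype_mk _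
  refine Nat.card_congr ⟨fun c => ⟨fun x => c.1 ⟨⟨x.1, h x.2⟩, x.2⟩, ?_⟩,
    fun c => ⟨fun x => c.1 ⟨((x : U) : Ω ≃ₐ[K] Ω), x.2⟩, ?_⟩, fun c => rfl, fun c => rfl⟩
  · obtain ⟨h1, h2, h3⟩ := c.2
    exact ⟨fun x y => h1 ⟨⟨x.1, h x.2⟩, x.2⟩ ⟨⟨y.1, h y.2⟩, y.2⟩, h2.comp_continuous hc1,
      fun j hj => h3 ⟨⟨j.1, h j.2⟩, j.2⟩ hj⟩
  · obtain ⟨h1, h2, h3⟩ := c.2
    exact ⟨fun x y => h1 ⟨((x : U) : Ω ≃ₐ[K] Ω), x.2⟩ ⟨((y : U) : Ω ≃ₐ[K] Ω), y.2⟩,
      h2.comp_continuous hc2, fun j hj => h3 ⟨((j : U) : Ω ≃ₐ[K] Ω), j.2⟩ hj⟩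

/-- the inequality for one pair of subgroups and a set of local conditions in the smaller one -/
theorem level_gen (J : Set (Ω ≃ₐ[K] Ω)) {U V : Subgroup (Ω ≃ₐ[K] Ω)} (h : V ≤ U)
    (hn : (V.subgroupOf U).Normal) (hVo : IsOpen (V : Set (Ω ≃ₐ[K] Ω))) {m : ℕ}
    (hidx : V.relIndex U = p ^ m) (hJc : ∀ j ∈ J, ∀ x ∈ U, x * j * x⁻¹ ∈ J)
    (hun : ∀ σ ∈ J, σ ∈ U → σ ∈ V) (hfin : ∀ k, Nat.card (Ch p J V k) ≠ 0) (n : ℕ) :
    DD p (fun k => Nat.card (Ch p J V k)) n ≤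
      (p : ℝ) ^ m * DD p (fun k => Nat.card (Ch p J U k)) n := by
  have hp2 : (2 : ℝ) ≤ p := by exact_mod_cast hp.out.two_le
  have hlog : 0 < Real.log p := Real.log_pos (by linarith)
  let ρU : U →* GL (Fin 1) ℤ_[p] := 1
  have hρU : Continuous ρU := continuous_const
  let J' : Set U := {σ : U | (σ : Ω ≃ₐ[K] Ω) ∈ J}
  have hNo : IsOpen ((V.subgroupOf U : Subgroup U) : Set U) :=
    hVo.preimage continuous_subtype_val
  have hcardN : ∀ k, Nat.card (tor p k (TT (AA ρU) (⊤ : Subgroup (V.subgroupOf U))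
      ((↑) ⁻¹' J'))) = Nat.card (Ch p J V k) := by
    intro k
    rw [card_coc ρU (fun g : V.subgroupOf U => (g : U)) (fun _ _ => rfl) _ k]
    exact transfer_gen J h k
  have hcardP : ∀ k, Nat.card (tor p k (TT (AA ρU) (⊤ : Subgroup U) J')) =
      Nat.card (Ch p J U k) := by
    intro k
    rw [card_coc ρU (fun g => g) (fun _ _ => rfl) J' k]
    exact card_char (q := p ^ k) (fun σ : U => (((1 : U →* GL (Fin 1) ℤ_[p]) σ :
      GL (Fin 1) ℤ_[p]) : Matrix (Fin 1) (Fin 1) ℤ_[p]).map (PadicInt.toZModPow k))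
        (fun σ => one_red k σ) J'
  have hA : ∀ k, Nat.card (tor p k (⊤ : AddSubgroup (AA ρU))) = p ^ (1 * k) := card_AA ρU
  have hF1 : Fn p (TT (AA ρU) (⊤ : Subgroup (V.subgroupOf U)) ((↑) ⁻¹' J')) := by
    intro k
    refine Nat.finite_of_card_ne_zero ?_
    rw [hcardN k]
    exact hfin k
  have hF2 : Fn p (⊤ : AddSubgroup (AA ρU)) := by
    intro k
    refine Nat.finite_of_card_ne_zero ?_
    rw [hA k]
    exact (pow_pos hp.out.pos _).ne'
  have h1 := main_ineq (l := p) (m := m) (P := U) (N := V.subgroupOf U) (A := AA ρU) (J := J')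
    hNo (fun j hj => hun _ hj j.2) hidx (fun j hj x => hJc _ hj _ x.2)
    (fun j _ a => smul_triv ρU j rfl a) (fun a => smul_lc ρU
      (fun g : V.subgroupOf U => (g : U))
      (fun k => (rd_lc ρU hρU k).comp_continuous continuous_subtype_val) a) hF1 hF2 n
  have h2 : 0 ≤ ((p : ℝ) ^ m - 1) *
      DD p (fun k => Nat.card (tor p k (⊤ : AddSubgroup (AA ρU)))) n := by
    refine mul_nonneg ?_ (sum_nonneg fun k _ => mul_nonneg (by positivity) ?_)
    · have : (1 : ℝ) ≤ (p : ℝ) ^ m := one_le_pow₀ (by linarith)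
      linarith
    · simp only [hA]
      have h3 : Real.log ((p ^ (1 * k) : ℕ) : ℝ) ≤ Real.log ((p ^ (1 * (k + 1)) : ℕ) : ℝ) := by
        apply Real.log_le_log
        · exact_mod_cast pow_pos hp.out.pos _
        · exact_mod_cast Nat.pow_le_pow_right hp.out.pos (Nat.mul_le_mul_left _ (Nat.le_succ k))
      linarith
  have h3 : (fun k => Nat.card (tor p k (TT (AA ρU) (⊤ : Subgroup (V.subgroupOf U))
      ((↑) ⁻¹' J')))) = fun k => Nat.card (Ch p J V k) := funext hcardN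
  have h4 : (fun k => Nat.card (tor p k (TT (AA ρU) (⊤ : Subgroup U) J'))) =
      fun k => Nat.card (Ch p J U k) := funext hcardP
  rw [h3, h4] at h1
  linarith

end level

end Pool.Agent.Y194.MU
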