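import Pool.Agent.Y194.MU.Main

/-!
# The inequality for number fields
-/

set_option autoImplicit false

open IsDedekindDomain NumberField Matrix Filter Topology

namespace Pool.Agent.Y194.MU

open Finset
open Pool.Agent.Y194.TS

section num

variable {p : ℕ} [hp : Fact p.Prime]

/-- the truncated weights `a (1 - p^{-j}) + ∑ (1 - p^{-min(j, v_i)})` -/
noncomputable def trunc (p j a : ℕ) (v : Multiset ℕ) : ℝ :=
  a * (1 - ((p : ℝ)⁻¹) ^ j) + (v.map (fun i => 1 - ((p : ℝ)⁻¹) ^ min j i)).sum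

/-- the weights `a + ∑ (1 - p^{-v_i})` -/
noncomputable def full (p a : ℕ) (v : Multiset ℕ) : ℝ :=
  a + (v.map (fun i => 1 - ((p : ℝ)⁻¹) ^ i)).sum

lemma geo_min (j i : ℕ) : (1 - (p : ℝ)⁻¹) * ∑ k ∈ range j, ((p : ℝ)⁻¹) ^ k *
    (if k < i then (1 : ℝ) else 0) = 1 - ((p : ℝ)⁻¹) ^ min j i := by
  have h5 : ∑ k ∈ range j, ((p : ℝ)⁻¹) ^ k * (if k < i then (1 : ℝ) else 0) =
      ∑ k ∈ range (min j i), ((p : ℝ)⁻¹) ^ k := by
    simp only [mul_ite, mul_one, mul_zero]
    rw [← sum_filter]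
    congr 1
    ext k
    rw [mem_filter, mem_range, mem_range, lt_min_iff]
  rw [h5]
  exact mul_neg_geom_sum _ _

lemma DD_typ (a : ℕ) (v : Multiset ℕ) (j : ℕ) :
    (1 - (p : ℝ)⁻¹) * DD p (typ p a v) j = Real.log p * trunc p j a v := by
  have h1 : DD p (typ p a v) j = Real.log p * ∑ k ∈ range j, ((p : ℝ)⁻¹) ^ k *
      (a + (v.map (fun j => if k < j then (1 : ℝ) else 0)).sum) := by
    unfold DD
    rw [mul_sum]
    refine sum_congr rfl fun k _ => ?_
    rw [log_typ hp.out.two_le]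
    ring
  rw [h1, mul_left_comm]
  clear h1
  congr 1
  unfold trunc
  induction v using Multiset.induction with
  | empty =>
    simp only [Multiset.map_zero, Multiset.sum_zero, add_zero]
    rw [← sum_mul, ← mul_assoc, mul_neg_geom_sum, mul_comm]
  | cons i v ih =>
    have h2 : ∑ k ∈ range j, ((p : ℝ)⁻¹) ^ k *
        (a + ((i ::ₘ v).map (fun j => if k < j then (1 : ℝ) else 0)).sum) =
        ∑ k ∈ range j, ((p : ℝ)⁻¹) ^ k * (a + (v.map (fun j => if k < j then (1 : ℝ) else 0)).sum) +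
          ∑ k ∈ range j, ((p : ℝ)⁻¹) ^ k * (if k < i then (1 : ℝ) else 0) := by
      rw [← sum_add_distrib]
      refine sum_congr rfl fun k _ => ?_
      rw [Multiset.map_cons, Multiset.sum_cons]
      ring
    rw [h2, mul_add, ih, geo_min, Multiset.map_cons, Multiset.sum_cons]
    ring

/-- all the inequalities for the limits -/
theorem dens_all {D : ℕ → ℕ} {N N' : ℕ → ℕ → ℕ} {a a' : ℕ} {v v' : Multiset ℕ} {m : ℕ}
    (h : Density p D N a v) (h' : Density p D N' a' v')
    (hle : ∀ n j, DD p (N' n) j ≤ (p : ℝ) ^ m * DD p (N n) j) :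
    (∀ j, trunc p j a' v' ≤ (p : ℝ) ^ m * trunc p j a v) ∧
      full p a' v' ≤ (p : ℝ) ^ m * full p a v := by
  have hp2 : (2 : ℝ) ≤ p := by exact_mod_cast hp.out.two_le
  have hlog : 0 < Real.log p := Real.log_pos (by linarith)
  have hinv : (p : ℝ)⁻¹ < 1 := inv_lt_one_of_one_lt₀ (by linarith)
  refine ⟨fun j => ?_, dens_ineq h h' hle⟩
  have h1 : DD p (typ p a' v') j ≤ (p : ℝ) ^ m * DD p (typ p a v) j := by
    refine le_of_tendsto_of_tendsto' (dens_lim h' j) ((dens_lim h j).const_mul ((p : ℝ) ^ m))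
      fun n => ?_
    rw [← mul_div_assoc]
    exact div_le_div_of_nonneg_right (hle n j) (Nat.cast_nonneg _)
  have h2 := mul_le_mul_of_nonneg_left h1 (show 0 ≤ 1 - (p : ℝ)⁻¹ by linarith)
  have h3 : Real.log p * trunc p j a' v' ≤ Real.log p * ((p : ℝ) ^ m * trunc p j a v) := by
    calc _ = (1 - (p : ℝ)⁻¹) * DD p (typ p a' v') j := (DD_typ a' v' j).symm
      _ ≤ _ := h2
      _ = (p : ℝ) ^ m * ((1 - (p : ℝ)⁻¹) * DD p (typ p a v) j) := by ring
      _ = _ := by rw [DD_typ]; ring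
  exact le_of_mul_le_mul_left h3 hlog

end num

section field

variable {K Ω : Type} [Field K] [Field Ω] [Algebra K Ω] [IsGalois K Ω] {p d : ℕ}
  [hp : Fact p.Prime]

/-- **the theorem for towers of fields** -/
theorem tower_main (S : Set (HeightOneSpectrum (𝓞 K)))
    (ρ : (Ω ≃ₐ[K] Ω) →* GL (Fin d) ℤ_[p]) (hρ : Continuous ρ) (hρS : ∀ σ ∈ Inertia Ω S, ρ σ = 1)
    (L : IntermediateField K Ω) [FiniteDimensional K L] [IsGalois K L] {m : ℕ}
    (hun : ∀ σ ∈ Inertia Ω S, σ ∈ L.fixingSubgroup)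
    (E : ℕ → IntermediateField K Ω) (hE : ∀ n, FiniteDimensional K (E n))
    (hdeg : ∀ n, Module.finrank K (L ⊔ E n : IntermediateField K Ω) =
      p ^ m * Module.finrank K (E n))
    (hfin : ∀ n k, Nat.card (Coc S ρ (L ⊔ E n).fixingSubgroup k) ≠ 0)
    {a a' : ℕ} {v v' : Multiset ℕ}
    (hK : Density p (fun n => Module.finrank K (E n))
      (fun n k => Nat.card (Coc S ρ (E n).fixingSubgroup k)) a v)
    (hL : Density p (fun n => Module.finrank K (E n))
      (fun n k => Nat.card (Coc S ρ (L ⊔ E n).fixingSubgroup k)) a' v') :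
    (∀ j, trunc p j a' v' ≤ (p : ℝ) ^ m * trunc p j a v) ∧
      full p a' v' ≤ (p : ℝ) ^ m * full p a v := by
  refine dens_all hK hL fun n j => ?_
  have i1 := hE n
  have i2 : FiniteDimensional K (L ⊔ E n : IntermediateField K Ω) :=
    IntermediateField.finiteDimensional_sup L (E n)
  have hle : (L ⊔ E n).fixingSubgroup ≤ (E n).fixingSubgroup :=
    IntermediateField.fixingSubgroup_antitone le_sup_right
  have hinf : (L ⊔ E n).fixingSubgroup = L.fixingSubgroup ⊓ (E n).fixingSubgroup :=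
    IntermediateField.fixingSubgroup_sup
  have hLn : L.fixingSubgroup.Normal := by
    rw [← IntermediateField.restrictNormalHom_ker]
    infer_instance
  have hn : ((L ⊔ E n).fixingSubgroup.subgroupOf (E n).fixingSubgroup).Normal := by
    rw [hinf, Subgroup.inf_subgroupOf_right]
    exact hLn.subgroupOf _
  have hidx : (L ⊔ E n).fixingSubgroup.relIndex (E n).fixingSubgroup = p ^ m := by
    have h1 := Subgroup.relIndex_mul_index hle
    rw [← IntermediateField.finrank_eq_fixingSubgroup_index,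
      ← IntermediateField.finrank_eq_fixingSubgroup_index, hdeg n] at h1
    exact Nat.eq_of_mul_eq_mul_right (Module.finrank_pos) h1
  exact level_ineq S ρ hρ hρS hle hn (L ⊔ E n).fixingSubgroup_isOpen hidx
    (fun σ h1 h2 => by
      rw [hinf]
      exact ⟨hun σ h1, h2⟩) (hfin n) j

/-- **the theorem for a pair of fields** -/
theorem pair_main (S : Set (HeightOneSpectrum (𝓞 K)))
    (ρ : (Ω ≃ₐ[K] Ω) →* GL (Fin d) ℤ_[p]) (hρ : Continuous ρ) (hρS : ∀ σ ∈ Inertia Ω S, ρ σ = 1)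
    {L L' : IntermediateField K Ω} [FiniteDimensional K L'] (hLL : L ≤ L')
    (hnorm : (L'.fixingSubgroup.subgroupOf L.fixingSubgroup).Normal) {m : ℕ}
    (hun : ∀ σ ∈ Inertia Ω S, σ ∈ L.fixingSubgroup → σ ∈ L'.fixingSubgroup)
    (E : ℕ → IntermediateField K Ω) (hE : ∀ n, FiniteDimensional K (E n))
    (hdeg : ∀ n, Module.finrank K (L' ⊔ E n : IntermediateField K Ω) =
      p ^ m * Module.finrank K (L ⊔ E n : IntermediateField K Ω))
    (hfin : ∀ n k, Nat.card (Coc S ρ (L' ⊔ E n).fixingSubgroup k) ≠ 0)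
    {a a' : ℕ} {v v' : Multiset ℕ}
    (hK : Density p (fun n => Module.finrank K (E n))
      (fun n k => Nat.card (Coc S ρ (L ⊔ E n).fixingSubgroup k)) a v)
    (hL : Density p (fun n => Module.finrank K (E n))
      (fun n k => Nat.card (Coc S ρ (L' ⊔ E n).fixingSubgroup k)) a' v') :
    (∀ j, trunc p j a' v' ≤ (p : ℝ) ^ m * trunc p j a v) ∧
      full p a' v' ≤ (p : ℝ) ^ m * full p a v := by
  refine dens_all hK hL fun n j => ?_
  have i1 := hE n
  have i0 : FiniteDimensional K L :=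
    FiniteDimensional.of_injective (IntermediateField.inclusion hLL).toLinearMap
      (IntermediateField.inclusion_injective hLL)
  have i2 : FiniteDimensional K (L' ⊔ E n : IntermediateField K Ω) :=
    IntermediateField.finiteDimensional_sup L' (E n)
  have i3 : FiniteDimensional K (L ⊔ E n : IntermediateField K Ω) :=
    IntermediateField.finiteDimensional_sup L (E n)
  have hle : (L' ⊔ E n).fixingSubgroup ≤ (L ⊔ E n).fixingSubgroup :=
    IntermediateField.fixingSubgroup_antitone (sup_le_sup_right hLL _)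
  have hinf : ∀ M : IntermediateField K Ω,
      (M ⊔ E n).fixingSubgroup = M.fixingSubgroup ⊓ (E n).fixingSubgroup :=
    fun M => IntermediateField.fixingSubgroup_sup
  have hn : ((L' ⊔ E n).fixingSubgroup.subgroupOf (L ⊔ E n).fixingSubgroup).Normal := by
    refine ⟨fun x hx g => ?_⟩
    rw [Subgroup.mem_subgroupOf, hinf] at hx ⊢
    have hU : ∀ y : Ω ≃ₐ[K] Ω, y ∈ (L ⊔ E n).fixingSubgroup →
        y ∈ L.fixingSubgroup ⊓ (E n).fixingSubgroup := fun y hy => by rwa [← hinf]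
    have hg := hU _ g.2
    have hx' := (hU _ x.2).1
    refine ⟨?_, ?_⟩
    · have h2 := hnorm.conj_mem ⟨(x : Ω ≃ₐ[K] Ω), hx'⟩ (Subgroup.mem_subgroupOf.2 hx.1)
        ⟨(g : Ω ≃ₐ[K] Ω), hg.1⟩
      exact Subgroup.mem_subgroupOf.1 h2
    · exact (E n).fixingSubgroup.mul_mem ((E n).fixingSubgroup.mul_mem hg.2 hx.2)
        ((E n).fixingSubgroup.inv_mem hg.2)
  have hidx : (L' ⊔ E n).fixingSubgroup.relIndex (L ⊔ E n).fixingSubgroup = p ^ m := by
    have h1 := Subgroup.relIndex_mul_index hle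
    rw [← IntermediateField.finrank_eq_fixingSubgroup_index,
      ← IntermediateField.finrank_eq_fixingSubgroup_index, hdeg n] at h1
    exact Nat.eq_of_mul_eq_mul_right (Module.finrank_pos) h1
  exact level_ineq S ρ hρ hρS hle hn (L' ⊔ E n).fixingSubgroup_isOpen hidx
    (fun σ h1 h2 => by
      rw [hinf] at h2 ⊢
      exact ⟨hun σ h1 h2.1, h2.2⟩) (hfin n) j

end field

section seq

variable {p : ℕ} [hp : Fact p.Prime]

lemma trunc_diff (j a : ℕ) (v : Multiset ℕ) : trunc p (j + 1) a v - trunc p j a v =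
    ((p : ℝ)⁻¹) ^ j * (1 - (p : ℝ)⁻¹) * (a + (Multiset.countP (fun i => j < i) v : ℕ)) := by
  unfold trunc
  induction v using Multiset.induction with
  | empty =>
    simp only [Multiset.map_zero, Multiset.sum_zero, Multiset.countP_zero, Nat.cast_zero, add_zero]
    rw [pow_succ]
    ring
  | cons i v ih =>
    rw [Multiset.map_cons, Multiset.map_cons, Multiset.sum_cons, Multiset.sum_cons,
      Multiset.countP_cons]
    by_cases h : j < i
    · rw [if_pos h, min_eq_left (Nat.succ_le_of_lt h), min_eq_left h.le, pow_succ]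
      push_cast
      rw [pow_succ] at ih
      linarith
    · rw [if_neg h, min_eq_right (not_lt.1 h), min_eq_right ((not_lt.1 h).trans (Nat.le_succ j)),
        add_zero]
      linarith

lemma count_eq (j : ℕ) (v : Multiset ℕ) : Multiset.countP (fun i => j < i) v =
    Multiset.countP (fun i => j + 1 < i) v + Multiset.count (j + 1) v := by
  induction v using Multiset.induction with
  | empty => simp
  | cons i v ih =>
    rw [Multiset.countP_cons, Multiset.countP_cons, Multiset.count_cons, ih]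
    by_cases h1 : j < i
    · by_cases h2 : j + 1 < i
      · rw [if_pos h1, if_pos h2, if_neg (by omega)]
        ring
      · rw [if_pos h1, if_neg h2, if_pos (by omega)]
        ring
    · rw [if_neg h1, if_neg (by omega), if_neg (by omega)]
      ring

lemma trunc_nonneg (j a : ℕ) (v : Multiset ℕ) : 0 ≤ trunc p j a v := by
  have hp1 : (1 : ℝ) ≤ p := by exact_mod_cast hp.out.one_le
  have hinv : (p : ℝ)⁻¹ ≤ 1 := inv_le_one_of_one_le₀ hp1
  have h0 : ∀ i : ℕ, (0 : ℝ) ≤ 1 - ((p : ℝ)⁻¹) ^ i := fun i => by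
    have := pow_le_one₀ (n := i) (by positivity : (0 : ℝ) ≤ (p : ℝ)⁻¹) hinv
    linarith
  unfold trunc
  refine add_nonneg (mul_nonneg (Nat.cast_nonneg a) (h0 j)) (Multiset.sum_nonneg fun x hx => ?_)
  obtain ⟨i, -, rfl⟩ := Multiset.mem_map.1 hx
  exact h0 _

/-- convergence of the normalised numbers of summands -/
lemma seq_conv {D : ℕ → ℕ} {a : ℕ → ℕ} {v : ℕ → Multiset ℕ}
    (h : ∀ j, Antitone fun r => trunc p j (a r) (v r) / D r) (j : ℕ) :
    ∃ l : ℝ, Tendsto (fun r => (Multiset.count (j + 1) (v r) : ℝ) / D r) atTop (𝓝 l) := by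
  have hp2 : (2 : ℝ) ≤ p := by exact_mod_cast hp.out.two_le
  have hinv : (p : ℝ)⁻¹ < 1 := inv_lt_one_of_one_lt₀ (by linarith)
  have hp0 : ((p : ℝ)⁻¹) ≠ 0 := inv_ne_zero (by linarith)
  have h1 : ∀ j, ∃ l : ℝ, Tendsto (fun r => trunc p j (a r) (v r) / D r) atTop (𝓝 l) := by
    intro j
    refine ⟨_, tendsto_atTop_ciInf (h j) ⟨0, ?_⟩⟩
    rintro _ ⟨r, rfl⟩
    exact div_nonneg (trunc_nonneg _ _ _) (Nat.cast_nonneg _)
  have h2 : ∀ j, ∃ l : ℝ, Tendsto (fun r => ((a r : ℝ) +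
      (Multiset.countP (fun i => j < i) (v r) : ℕ)) / D r) atTop (𝓝 l) := by
    intro j
    obtain ⟨l1, hl1⟩ := h1 j
    obtain ⟨l2, hl2⟩ := h1 (j + 1)
    refine ⟨(((p : ℝ)⁻¹) ^ j * (1 - (p : ℝ)⁻¹))⁻¹ * (l2 - l1), ?_⟩
    refine ((hl2.sub hl1).const_mul _).congr fun r => ?_
    have hne : ((p : ℝ)⁻¹) ^ j * (1 - (p : ℝ)⁻¹) ≠ 0 :=
      mul_ne_zero (pow_ne_zero _ hp0) (by linarith)
    rw [← sub_div, trunc_diff, ← mul_div_assoc, inv_mul_cancel_left₀ hne]
  obtain ⟨l1, hl1⟩ := h2 j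
  obtain ⟨l2, hl2⟩ := h2 (j + 1)
  refine ⟨l1 - l2, (hl1.sub hl2).congr fun r => ?_⟩
  rw [← sub_div, count_eq j (v r)]
  congr 1
  push_cast
  ring

end seq

end Pool.Agent.Y194.MU
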