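import Pool.Agent.Y194.TS.Num

/-!
# Densities of cocycles in towers of number fields
-/

set_option autoImplicit false

open IsDedekindDomain NumberField Matrix Filter Topology

namespace Pool.Agent.Y194.MU

open Finset
open Pool.Agent.Y194.TS

section level

variable {K Ω : Type} [Field K] [Field Ω] [Algebra K Ω] {p d : ℕ} [hp : Fact p.Prime]

/-- the crossed homomorphisms on the subgroup `U` with values in `(ℤ/p^k)^d` which kill the inertia
groups outside `S` -/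
abbrev Coc (S : Set (HeightOneSpectrum (𝓞 K))) (ρ : (Ω ≃ₐ[K] Ω) →* GL (Fin d) ℤ_[p])
    (U : Subgroup (Ω ≃ₐ[K] Ω)) (k : ℕ) : Type :=
  {c : U → Fin d → ZMod (p ^ k) // Crossed
    (fun σ : U => (ρ (σ : Ω ≃ₐ[K] Ω) : Matrix (Fin d) (Fin d) ℤ_[p]).map (PadicInt.toZModPow k))
    {σ : U | (σ : Ω ≃ₐ[K] Ω) ∈ Inertia Ω S} c}

lemma card_transfer (S : Set (HeightOneSpectrum (𝓞 K))) (ρ : (Ω ≃ₐ[K] Ω) →* GL (Fin d) ℤ_[p])
    {U V : Subgroup (Ω ≃ₐ[K] Ω)} (h : V ≤ U) (k : ℕ) :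
    Nat.card {c : V.subgroupOf U → Fin d → ZMod (p ^ k) //
      (∀ x y, c (x * y) = c x + rd (ρ.comp U.subtype) k (x : U) *ᵥ c y) ∧ IsLocallyConstant c ∧
        ∀ j ∈ ((↑) ⁻¹' {σ : U | (σ : Ω ≃ₐ[K] Ω) ∈ Inertia Ω S} : Set (V.subgroupOf U)),
          c j = 0} = Nat.card (Coc S ρ V k) := by
  have hc1 : Continuous (fun x : V => (⟨⟨x.1, h x.2⟩, x.2⟩ : V.subgroupOf U)) :=
    (continuous_subtype_val.subtype_mk _).subtype_mk _
  have hc2 : Continuous (fun x : V.subgroupOf U => (⟨((x : U) : Ω ≃ₐ[K] Ω), x.2⟩ : V)) :=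
    (continuous_subtype_val.comp continuous_subtype_val).subtype_mk _
  refine Nat.card_congr ⟨fun c => ⟨fun x => c.1 ⟨⟨x.1, h x.2⟩, x.2⟩, ?_⟩,
    fun c => ⟨fun x => c.1 ⟨((x : U) : Ω ≃ₐ[K] Ω), x.2⟩, ?_⟩, fun c => rfl, fun c => rfl⟩
  · obtain ⟨h1, h2, h3⟩ := c.2
    exact ⟨fun x y => h1 ⟨⟨x.1, h x.2⟩, x.2⟩ ⟨⟨y.1, h y.2⟩, y.2⟩, h2.comp_continuous hc1,
      fun j hj => h3 ⟨⟨j.1, h j.2⟩, j.2⟩ hj⟩
  · obtain ⟨h1, h2, h3⟩ := c.2
    exact ⟨fun x y => h1 ⟨((x : U) : Ω ≃ₐ[K] Ω), x.2⟩ ⟨((y : U) : Ω ≃ₐ[K] Ω), y.2⟩,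
      h2.comp_continuous hc2, fun j hj => h3 ⟨((j : U) : Ω ≃ₐ[K] Ω), j.2⟩ hj⟩

/-- the inequality for one pair of subgroups -/
theorem level_ineq [IsGalois K Ω] (S : Set (HeightOneSpectrum (𝓞 K)))
    (ρ : (Ω ≃ₐ[K] Ω) →* GL (Fin d) ℤ_[p]) (hρ : Continuous ρ) (hρS : ∀ σ ∈ Inertia Ω S, ρ σ = 1)
    {U V : Subgroup (Ω ≃ₐ[K] Ω)} (h : V ≤ U) (hn : (V.subgroupOf U).Normal)
    (hVo : IsOpen (V : Set (Ω ≃ₐ[K] Ω))) {m : ℕ} (hidx : V.relIndex U = p ^ m)
    (hun : ∀ σ ∈ Inertia Ω S, σ ∈ U → σ ∈ V) (hfin : ∀ k, Nat.card (Coc S ρ V k) ≠ 0) (n : ℕ) :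
    DD p (fun k => Nat.card (Coc S ρ V k)) n ≤
      (p : ℝ) ^ m * DD p (fun k => Nat.card (Coc S ρ U k)) n := by
  have hp2 : (2 : ℝ) ≤ p := by exact_mod_cast hp.out.two_le
  have hlog : 0 < Real.log p := Real.log_pos (by linarith)
  let ρU : U →* GL (Fin d) ℤ_[p] := ρ.comp U.subtype
  have hρU : Continuous ρU := hρ.comp continuous_subtype_val
  let J : Set U := {σ : U | (σ : Ω ≃ₐ[K] Ω) ∈ Inertia Ω S}
  have hNo : IsOpen ((V.subgroupOf U : Subgroup U) : Set U) :=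
    hVo.preimage continuous_subtype_val
  have hcardN : ∀ k, Nat.card (tor p k (TT (AA ρU) (⊤ : Subgroup (V.subgroupOf U))
      ((↑) ⁻¹' J))) = Nat.card (Coc S ρ V k) := by
    intro k
    rw [card_coc ρU (fun g : V.subgroupOf U => (g : U)) (fun _ _ => rfl) _ k]
    exact card_transfer S ρ h k
  have hcardP : ∀ k, Nat.card (tor p k (TT (AA ρU) (⊤ : Subgroup U) J)) =
      Nat.card (Coc S ρ U k) := by
    intro k
    rw [card_coc ρU (fun g => g) (fun _ _ => rfl) J k]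
    rfl
  have hA : ∀ k, Nat.card (tor p k (⊤ : AddSubgroup (AA ρU))) = p ^ (d * k) := card_AA ρU
  have hF1 : Fn p (TT (AA ρU) (⊤ : Subgroup (V.subgroupOf U)) ((↑) ⁻¹' J)) := by
    intro k
    refine Nat.finite_of_card_ne_zero ?_
    rw [hcardN k]
    exact hfin k
  have hF2 : Fn p (⊤ : AddSubgroup (AA ρU)) := by
    intro k
    refine Nat.finite_of_card_ne_zero ?_
    rw [hA k]
    exact (pow_pos hp.out.pos _).ne'
  have h1 := main_ineq (l := p) (m := m) (P := U) (N := V.subgroupOf U) (A := AA ρU) (J := J) hNo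
    (fun j hj => hun _ hj j.2) hidx (fun j hj x => inertia_conj (j : Ω ≃ₐ[K] Ω) hj x)
    (fun j hj a => smul_triv ρU j (hρS _ hj) a) (fun a => smul_lc ρU
      (fun g : V.subgroupOf U => (g : U))
      (fun k => (rd_lc ρU hρU k).comp_continuous continuous_subtype_val) a) hF1 hF2 n
  have h2 : 0 ≤ ((p : ℝ) ^ m - 1) *
      DD p (fun k => Nat.card (tor p k (⊤ : AddSubgroup (AA ρU)))) n := by
    refine mul_nonneg ?_ (sum_nonneg fun k _ => mul_nonneg (by positivity) ?_)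
    · have : (1 : ℝ) ≤ (p : ℝ) ^ m := one_le_pow₀ (by linarith)
      linarith
    · simp only [hA]
      have h3 : Real.log ((p ^ (d * k) : ℕ) : ℝ) ≤ Real.log ((p ^ (d * (k + 1)) : ℕ) : ℝ) := by
        apply Real.log_le_log
        · exact_mod_cast pow_pos hp.out.pos _
        · exact_mod_cast Nat.pow_le_pow_right hp.out.pos (Nat.mul_le_mul_left _ (Nat.le_succ k))
      linarith
  have h3 : (fun k => Nat.card (tor p k (TT (AA ρU) (⊤ : Subgroup (V.subgroupOf U))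
      ((↑) ⁻¹' J)))) = fun k => Nat.card (Coc S ρ V k) := funext hcardN
  have h4 : (fun k => Nat.card (tor p k (TT (AA ρU) (⊤ : Subgroup U) J))) =
      fun k => Nat.card (Coc S ρ U k) := funext hcardP
  rw [h3, h4] at h1
  linarith

end level

section limit

variable {p : ℕ} [hp : Fact p.Prime]

/-- the normalised logarithms of the numbers converge to `a k + ∑ min(k, v_j)` -/
def Density (p : ℕ) (D : ℕ → ℕ) (N : ℕ → ℕ → ℕ) (a : ℕ) (v : Multiset ℕ) : Prop :=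
  ∀ k, Tendsto (fun n => Real.logb p (N n k) / D n) atTop
    (𝓝 ((a : ℝ) * k + ((v.map (fun j => min k j)).sum : ℕ)))

lemma dens_lim {D : ℕ → ℕ} {N : ℕ → ℕ → ℕ} {a : ℕ} {v : Multiset ℕ} (h : Density p D N a v)
    (j : ℕ) : Tendsto (fun n => DD p (N n) j / D n) atTop (𝓝 (DD p (typ p a v) j)) := by
  have hp2 : (2 : ℝ) ≤ p := by exact_mod_cast hp.out.two_le
  have hlog : 0 < Real.log p := Real.log_pos (by linarith)
  have h1 : ∀ k, Tendsto (fun n => Real.log (N n k) / D n) atTop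
      (𝓝 (Real.log (typ p a v k))) := by
    intro k
    have h2 := (h k).mul_const (Real.log p)
    have h3 : Real.log (typ p a v k) = ((a : ℝ) * k + ((v.map (fun j => min k j)).sum : ℕ)) *
        Real.log p := by
      unfold typ
      rw [Nat.cast_pow, Real.log_pow, Nat.cast_add, Nat.cast_mul]
    rw [h3]
    refine h2.congr fun n => ?_
    unfold Real.logb
    rw [div_mul_eq_mul_div, div_mul_cancel₀ _ hlog.ne']
  have h4 : Tendsto (fun n => ∑ k ∈ range j, ((p : ℝ)⁻¹) ^ k *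
      (Real.log (N n (k + 1)) / D n - Real.log (N n k) / D n)) atTop
      (𝓝 (∑ k ∈ range j, ((p : ℝ)⁻¹) ^ k *
        (Real.log (typ p a v (k + 1)) - Real.log (typ p a v k)))) :=
    tendsto_finsetSum _ fun k _ => ((h1 (k + 1)).sub (h1 k)).const_mul _
  refine h4.congr fun n => ?_
  unfold DD
  rw [sum_div]
  refine sum_congr rfl fun k _ => ?_
  rw [← sub_div, mul_div_assoc]

/-- the inequality for the limits -/
theorem dens_ineq {D : ℕ → ℕ} {N N' : ℕ → ℕ → ℕ} {a a' : ℕ} {v v' : Multiset ℕ} {m : ℕ}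
    (h : Density p D N a v) (h' : Density p D N' a' v')
    (hle : ∀ n j, DD p (N' n) j ≤ (p : ℝ) ^ m * DD p (N n) j) :
    a' + wt p v' ≤ (p : ℝ) ^ m * (a + wt p v) := by
  have hp2 : (2 : ℝ) ≤ p := by exact_mod_cast hp.out.two_le
  have hlog : 0 < Real.log p := Real.log_pos (by linarith)
  have hinv : (p : ℝ)⁻¹ < 1 := inv_lt_one_of_one_lt₀ (by linarith)
  have hI : 0 < (1 - (p : ℝ)⁻¹)⁻¹ := inv_pos.2 (by linarith)
  have h1 : ∀ j, DD p (typ p a' v') j ≤ (p : ℝ) ^ m * DD p (typ p a v) j := by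
    intro j
    refine le_of_tendsto_of_tendsto' (dens_lim h' j) ((dens_lim h j).const_mul ((p : ℝ) ^ m))
      fun n => ?_
    rw [← mul_div_assoc]
    exact div_le_div_of_nonneg_right (hle n j) (Nat.cast_nonneg _)
  have t1 := lim_DD (l := p) (N := typ p a' v') hp.out.two_le (fun _ => rfl)
  have t2 := lim_DD (l := p) (N := typ p a v) hp.out.two_le (fun _ => rfl)
  have h2 := le_of_tendsto_of_tendsto' t1 (t2.const_mul ((p : ℝ) ^ m)) h1
  have h3 : (Real.log p * (1 - (p : ℝ)⁻¹)⁻¹) * (a' + wt p v') ≤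
      (Real.log p * (1 - (p : ℝ)⁻¹)⁻¹) * ((p : ℝ) ^ m * (a + wt p v)) := by
    calc _ = Real.log p * ((1 - (p : ℝ)⁻¹)⁻¹ * (a' + wt p v')) := by ring
      _ ≤ _ := h2
      _ = _ := by ring
  exact le_of_mul_le_mul_left h3 (mul_pos hlog hI)

end limit

end Pool.Agent.Y194.MU
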