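import Pool.Agent.Y194.MU.Fld

/-!
# Ramified extensions: local conditions given by inertia and decomposition groups
-/

set_option autoImplicit false

open IsDedekindDomain NumberField Matrix Filter Topology

namespace Pool.Agent.Y194.MU

open Finset
open Pool.Agent.Y194.TS

section val

variable {Ω : Type} [Field Ω]

lemma inMax_iff (V : ValuationSubring Ω) (z : Ω) : InMax V z ↔ V.valuation z < 1 := by
  unfold InMax
  by_cases hz : z = 0
  · rw [hz, map_zero]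
    exact ⟨fun _ => zero_lt_one, fun _ => Or.inl rfl⟩
  · rw [or_iff_right hz, ← V.valuation_le_one_iff, map_inv₀, not_le]
    exact one_lt_inv₀ ((Valuation.pos_iff _).2 hz)

variable {K : Type} [Field K] [Algebra K Ω]

/-- the valuation ring `V` of `Ω` lies above the prime `𝔭` of `K` -/
def Above (V : ValuationSubring Ω) (𝔭 : HeightOneSpectrum (𝓞 K)) : Prop :=
  ∀ x ∈ 𝔭.asIdeal, InMax V (algebraMap K Ω (x : K))

/-- the inertia group of the valuation ring `V`; if `V` lies above an element of `T`, the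
decomposition group of `V` -/
def LocGp (T : Set (HeightOneSpectrum (𝓞 K))) (V : ValuationSubring Ω) :
    Subgroup (Ω ≃ₐ[K] Ω) where
  carrier := {σ | (∀ x, σ x ∈ V ↔ x ∈ V) ∧
    ((∃ 𝔭 ∈ T, Above V 𝔭) ∨ ∀ x ∈ V, InMax V (σ x - x))}
  one_mem' := by
    refine ⟨fun x => Iff.rfl, Or.inr fun x _ => ?_⟩
    rw [AlgEquiv.one_apply, sub_self]
    exact Or.inl rfl
  mul_mem' := by
    rintro σ τ ⟨h1, h2⟩ ⟨h3, h4⟩
    refine ⟨fun x => (h1 (τ x)).trans (h3 x), ?_⟩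
    rcases h2 with h2 | h2
    · exact Or.inl h2
    rcases h4 with h4 | h4
    · exact Or.inl h4
    refine Or.inr fun x hx => ?_
    have e : (σ * τ) x - x = (σ (τ x) - τ x) + (τ x - x) := by
      rw [AlgEquiv.mul_apply]
      ring
    rw [e, inMax_iff]
    exact (Valuation.map_add _ _ _).trans_lt (max_lt ((inMax_iff V _).1 (h2 _ ((h3 x).2 hx)))
      ((inMax_iff V _).1 (h4 x hx)))
  inv_mem' := by
    rintro σ ⟨h1, h2⟩
    have hi : ∀ x, σ (σ⁻¹ x) = x := fun x => σ.apply_symm_apply x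
    have h3 : ∀ x, σ⁻¹ x ∈ V ↔ x ∈ V := fun x => by rw [← h1, hi]
    refine ⟨h3, ?_⟩
    rcases h2 with h2 | h2
    · exact Or.inl h2
    refine Or.inr fun x hx => ?_
    have h4 := h2 (σ⁻¹ x) ((h3 x).2 hx)
    rw [hi, inMax_iff, Valuation.map_sub_swap] at h4
    rw [inMax_iff]
    exact h4

/-- the valuation ring `τ V` -/
def conjV (τ : Ω ≃ₐ[K] Ω) (V : ValuationSubring Ω) : ValuationSubring Ω :=
  V.comap (τ⁻¹ : Ω ≃ₐ[K] Ω).toAlgHom.toRingHom

lemma mem_conjV (τ : Ω ≃ₐ[K] Ω) (V : ValuationSubring Ω) (x : Ω) :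
    x ∈ conjV τ V ↔ τ⁻¹ x ∈ V := Iff.rfl

lemma conjV_inv (τ : Ω ≃ₐ[K] Ω) (V : ValuationSubring Ω) : conjV τ⁻¹ (conjV τ V) = V := by
  ext x
  rw [mem_conjV, mem_conjV, inv_inv]
  have : τ⁻¹ (τ x) = x := τ.symm_apply_apply x
  rw [this]

lemma loc_conj {T : Set (HeightOneSpectrum (𝓞 K))} {V : ValuationSubring Ω} {σ : Ω ≃ₐ[K] Ω}
    (hσ : σ ∈ LocGp T V) (τ : Ω ≃ₐ[K] Ω) : τ * σ * τ⁻¹ ∈ LocGp T (conjV τ V) := by
  obtain ⟨h2, h3⟩ := hσ
  have hm : ∀ z, InMax (conjV τ V) z ↔ InMax V (τ⁻¹ z) := by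
    intro z
    unfold InMax
    rw [mem_conjV, map_inv₀, EmbeddingLike.map_eq_zero_iff]
  have hττ : ∀ x, τ⁻¹ (τ x) = x := fun x => τ.symm_apply_apply x
  refine ⟨fun x => ?_, ?_⟩
  · rw [mem_conjV, mem_conjV]
    show τ⁻¹ (τ (σ (τ⁻¹ x))) ∈ V ↔ _
    rw [hττ]
    exact h2 _
  · rcases h3 with ⟨𝔭, hp, h3⟩ | h3
    · refine Or.inl ⟨𝔭, hp, fun x hx => ?_⟩
      rw [hm, AlgEquiv.commutes]
      exact h3 x hx
    · refine Or.inr fun x hx => ?_
      rw [hm, map_sub]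
      show InMax V (τ⁻¹ (τ (σ (τ⁻¹ x))) - τ⁻¹ x)
      rw [hττ]
      exact h3 _ ((mem_conjV τ V x).1 hx)

/-- the union of these groups -/
def Loc (Ω : Type) [Field Ω] [Algebra K Ω] (T : Set (HeightOneSpectrum (𝓞 K))) :
    Set (Ω ≃ₐ[K] Ω) := {σ | ∃ V : ValuationSubring Ω, σ ∈ LocGp T V}

/-- at most `t` places of the fixed field of `U` fail to be unramified (resp. totally split, if they lie above `T`) in the
fixed field of `U'`: the exceptional valuation rings of `Ω` form at most `t` conjugacy classes under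
`U` -/
def FewPlaces (T : Set (HeightOneSpectrum (𝓞 K))) (U U' : Subgroup (Ω ≃ₐ[K] Ω)) (t : ℕ) : Prop :=
  ∃ R : Finset (ValuationSubring Ω), R.card ≤ t ∧ ∀ V : ValuationSubring Ω,
    (∃ σ ∈ LocGp T V, σ ∈ U ∧ σ ∉ U') → ∃ W ∈ R, ∃ τ ∈ U, V = conjV τ W

/-- the homomorphisms `U → ℤ/q` which are locally constant and kill `Loc T` -/
abbrev LChars (T : Set (HeightOneSpectrum (𝓞 K))) (U : Subgroup (Ω ≃ₐ[K] Ω)) (q : ℕ) : Type :=
  {f : U → ZMod q // Char {σ : U | (σ : Ω ≃ₐ[K] Ω) ∈ Loc Ω T} f}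

end val

end Pool.Agent.Y194.MU
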