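import Pool.Agent.Y194.MU.Cmp

/-!
# The inequality for the limits, with few ramified places
-/

set_option autoImplicit false

open IsDedekindDomain NumberField Matrix Filter Topology

namespace Pool.Agent.Y194.MU

open Finset
open Pool.Agent.Y194.TS

section lim

variable {p : ℕ} [hp : Fact p.Prime]

lemma dens_transfer {D t : ℕ → ℕ} {N N₂ : ℕ → ℕ → ℕ} {a : ℕ} {v : Multiset ℕ} {M : ℕ}
    (ht : Tendsto (fun n => (t n : ℝ) / D n) atTop (𝓝 0))
    (h0 : ∀ n k, N n k ≠ 0) (h1 : ∀ n k, N n k ≤ N₂ n k)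
    (h2 : ∀ n k, N₂ n k ≤ N n k * (p ^ k) ^ (t n * M)) (h : Density p D N a v) :
    Density p D N₂ a v := by
  have hp1 : (1 : ℝ) < p := by exact_mod_cast hp.out.one_lt
  intro k
  have h3 : Tendsto (fun n => Real.logb p (N n k) / D n + k * M * ((t n : ℝ) / D n)) atTop
      (𝓝 ((a : ℝ) * k + ((v.map (fun j => min k j)).sum : ℕ))) := by
    have := (h k).add (ht.const_mul ((k : ℝ) * M))
    rwa [mul_zero, add_zero] at this
  refine tendsto_of_tendsto_of_tendsto_of_le_of_le (h k) h3 (fun n => ?_) (fun n => ?_)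
  · have hN : (0 : ℝ) < N n k := by exact_mod_cast Nat.pos_of_ne_zero (h0 n k)
    have h4 : Real.logb p (N n k) ≤ Real.logb p (N₂ n k) :=
      Real.logb_le_logb_of_le hp1 hN (by exact_mod_cast h1 n k)
    exact div_le_div_of_nonneg_right h4 (Nat.cast_nonneg _)
  · have hN : (0 : ℝ) < N n k := by exact_mod_cast Nat.pos_of_ne_zero (h0 n k)
    have hN2 : (0 : ℝ) < N₂ n k := by
      exact_mod_cast (Nat.pos_of_ne_zero (h0 n k)).trans_le (h1 n k)
    have h4 : Real.logb p (N₂ n k) ≤ Real.logb p (N n k) + k * (t n * M) := by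
      have h5 : ((N₂ n k : ℕ) : ℝ) ≤ (N n k : ℝ) * ((p : ℝ) ^ k) ^ (t n * M) := by
        exact_mod_cast h2 n k
      have h6 := Real.logb_le_logb_of_le hp1 hN2 h5
      rw [Real.logb_mul hN.ne' (by positivity), ← pow_mul, Real.logb_pow,
        Real.logb_self_eq_one hp1, mul_one] at h6
      push_cast at h6
      exact h6
    calc Real.logb p (N₂ n k) / D n ≤ (Real.logb p (N n k) + k * (t n * M)) / D n :=
          div_le_div_of_nonneg_right h4 (Nat.cast_nonneg _)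
      _ = Real.logb p (N n k) / D n + k * M * ((t n : ℝ) / D n) := by ring

end lim

section pair

variable {K Ω : Type} [Field K] [Field Ω] [Algebra K Ω] {p : ℕ} [hp : Fact p.Prime]

/-- comparison of the local conditions -/
lemma card_few {T : Set (HeightOneSpectrum (𝓞 K))} {U V : Subgroup (Ω ≃ₐ[K] Ω)} {t e : ℕ}
    (hidx : V.relIndex U = p ^ e) (hfew : FewPlaces T U V t) (k : ℕ)
    (hfin : Finite (LChars T U (p ^ k))) :
    Nat.card (Ch p (Loc Ω T ∩ V) U k) ≠ 0 ∧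
    Nat.card (LChars T U (p ^ k)) ≤ Nat.card (Ch p (Loc Ω T ∩ V) U k) ∧
    Nat.card (Ch p (Loc Ω T ∩ V) U k) ≤
      Nat.card (LChars T U (p ^ k)) * (p ^ k) ^ (t * p ^ e) := by
  obtain ⟨R, hR, hcov⟩ := hfew
  have hi0 : (V.subgroupOf U).index ≠ 0 := by
    have : (V.subgroupOf U).index = p ^ e := hidx
    rw [this]
    exact (pow_pos hp.out.pos e).ne'
  have hfi : (V.subgroupOf U).FiniteIndex := ⟨hi0⟩
  have hq : Finite (U ⧸ V.subgroupOf U) := Subgroup.finite_quotient_of_finiteIndex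
  have hcardq : Nat.card (U ⧸ V.subgroupOf U) = p ^ e := hidx
  have hne : NeZero (p ^ k) := ⟨(pow_pos hp.out.pos k).ne'⟩
  have h := card_cmp (q := p ^ k) (J₁ := {σ : U | (σ : Ω ≃ₐ[K] Ω) ∈ Loc Ω T ∩ V})
    (J₂ := {σ : U | (σ : Ω ≃ₐ[K] Ω) ∈ Loc Ω T}) (V.subgroupOf U) (R := R)
    (fun W => (LocGp T W.1).subgroupOf U) (fun W x hx hxV => ⟨⟨W.1, hx⟩, hxV⟩)
    (fun x hx => hx.1) (by
      rintro ⟨j, hjU⟩ ⟨X, hj⟩
      by_cases hjV : j ∈ V
      · exact Or.inl ⟨⟨X, hj⟩, hjV⟩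
      · obtain ⟨W, hW, τ, hτ, hX⟩ := hcov X ⟨j, hj, hjU, hjV⟩
        refine Or.inr ⟨⟨W, hW⟩, ⟨τ, hτ⟩, ?_⟩
        show τ⁻¹ * j * τ ∈ LocGp T W
        have h1 := loc_conj hj τ⁻¹
        rw [hX, conjV_inv, inv_inv] at h1
        exact h1) hfin
  obtain ⟨h1, h2, h3⟩ := h
  refine ⟨h1, h2, h3.trans (Nat.mul_le_mul_left _ (Nat.pow_le_pow_right (pow_pos hp.out.pos k) ?_))⟩
  rw [hcardq, Nat.card_eq_fintype_card, Fintype.card_coe]
  exact Nat.mul_le_mul_right _ hR

lemma card_restrict (T : Set (HeightOneSpectrum (𝓞 K))) (V : Subgroup (Ω ≃ₐ[K] Ω)) (k : ℕ) :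
    Nat.card (Ch p (Loc Ω T ∩ V) V k) = Nat.card (LChars T V (p ^ k)) := by
  have h : {σ : V | (σ : Ω ≃ₐ[K] Ω) ∈ Loc Ω T ∩ V} = {σ : V | (σ : Ω ≃ₐ[K] Ω) ∈ Loc Ω T} := by
    ext σ
    exact ⟨fun h => h.1, fun h => ⟨h, σ.2⟩⟩
  show Nat.card {f : V → ZMod (p ^ k) // Char {σ : V | (σ : Ω ≃ₐ[K] Ω) ∈ Loc Ω T ∩ V} f} = _
  rw [h]

/-- **the theorem for a pair of fields, ramification allowed** -/
theorem ram_pair [IsGalois K Ω] (T : Set (HeightOneSpectrum (𝓞 K)))
    {L L' : IntermediateField K Ω} [FiniteDimensional K L'] (hLL : L ≤ L')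
    (hnorm : (L'.fixingSubgroup.subgroupOf L.fixingSubgroup).Normal) {m : ℕ}
    (E : ℕ → IntermediateField K Ω) (hE : ∀ n, FiniteDimensional K (E n))
    (hdeg : ∀ n, Module.finrank K (L' ⊔ E n : IntermediateField K Ω) =
      p ^ m * Module.finrank K (L ⊔ E n : IntermediateField K Ω))
    {t : ℕ → ℕ} (ht : Tendsto (fun n => (t n : ℝ) / Module.finrank K (E n)) atTop (𝓝 0))
    (hfew : ∀ n, FewPlaces T (L ⊔ E n).fixingSubgroup (L' ⊔ E n).fixingSubgroup (t n))
    (hfin : ∀ n k, Finite (LChars T (L ⊔ E n).fixingSubgroup (p ^ k)))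
    (hfin' : ∀ n k, Finite (LChars T (L' ⊔ E n).fixingSubgroup (p ^ k)))
    {a a' : ℕ} {v v' : Multiset ℕ}
    (hK : Density p (fun n => Module.finrank K (E n))
      (fun n k => Nat.card (LChars T (L ⊔ E n).fixingSubgroup (p ^ k))) a v)
    (hL : Density p (fun n => Module.finrank K (E n))
      (fun n k => Nat.card (LChars T (L' ⊔ E n).fixingSubgroup (p ^ k))) a' v') :
    (∀ j, trunc p j a' v' ≤ (p : ℝ) ^ m * trunc p j a v) ∧
      full p a' v' ≤ (p : ℝ) ^ m * full p a v := by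
  have i0 : FiniteDimensional K L :=
    FiniteDimensional.of_injective (IntermediateField.inclusion hLL).toLinearMap
      (IntermediateField.inclusion_injective hLL)
  have hpos : ∀ (U : Subgroup (Ω ≃ₐ[K] Ω)) (k : ℕ), Finite (LChars T U (p ^ k)) →
      Nat.card (LChars T U (p ^ k)) ≠ 0 := by
    intro U k hU
    have h2 : Nonempty (LChars T U (p ^ k)) :=
      ⟨⟨0, fun x y => (add_zero (0 : ZMod (p ^ k))).symm, IsLocallyConstant.const 0,
        fun _ _ => rfl⟩⟩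
    exact Nat.card_pos.ne'
  have hle : ∀ n, (L' ⊔ E n).fixingSubgroup ≤ (L ⊔ E n).fixingSubgroup := fun n =>
    IntermediateField.fixingSubgroup_antitone (sup_le_sup_right hLL _)
  have hinf : ∀ (n : ℕ) (M : IntermediateField K Ω),
      (M ⊔ E n).fixingSubgroup = M.fixingSubgroup ⊓ (E n).fixingSubgroup :=
    fun n M => IntermediateField.fixingSubgroup_sup
  have hn : ∀ n, ((L' ⊔ E n).fixingSubgroup.subgroupOf (L ⊔ E n).fixingSubgroup).Normal := by
    intro n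
    refine ⟨fun x hx g => ?_⟩
    rw [Subgroup.mem_subgroupOf, hinf n] at hx ⊢
    have hU : ∀ y : Ω ≃ₐ[K] Ω, y ∈ (L ⊔ E n).fixingSubgroup →
        y ∈ L.fixingSubgroup ⊓ (E n).fixingSubgroup := fun y hy => by rwa [← hinf n]
    have hg := hU _ g.2
    have hx' := (hU _ x.2).1
    refine ⟨?_, ?_⟩
    · have h2 := hnorm.conj_mem ⟨(x : Ω ≃ₐ[K] Ω), hx'⟩ (Subgroup.mem_subgroupOf.2 hx.1)
        ⟨(g : Ω ≃ₐ[K] Ω), hg.1⟩
      exact Subgroup.mem_subgroupOf.1 h2
    · exact (E n).fixingSubgroup.mul_mem ((E n).fixingSubgroup.mul_mem hg.2 hx.2)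
        ((E n).fixingSubgroup.inv_mem hg.2)
  have hidx : ∀ n, (L' ⊔ E n).fixingSubgroup.relIndex (L ⊔ E n).fixingSubgroup = p ^ m := by
    intro n
    have i1 := hE n
    have i2 : FiniteDimensional K (L' ⊔ E n : IntermediateField K Ω) :=
      IntermediateField.finiteDimensional_sup L' (E n)
    have i3 : FiniteDimensional K (L ⊔ E n : IntermediateField K Ω) :=
      IntermediateField.finiteDimensional_sup L (E n)
    have h1 := Subgroup.relIndex_mul_index (hle n)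
    rw [← IntermediateField.finrank_eq_fixingSubgroup_index,
      ← IntermediateField.finrank_eq_fixingSubgroup_index, hdeg n] at h1
    exact Nat.eq_of_mul_eq_mul_right (Module.finrank_pos) h1
  have hcmp := fun n k => card_few (hidx n) (hfew n) k (hfin n k)
  have hK2 : Density p (fun n => Module.finrank K (E n))
      (fun n k => Nat.card (Ch p (Loc Ω T ∩ ((L' ⊔ E n).fixingSubgroup : Set (Ω ≃ₐ[K] Ω)))
        (L ⊔ E n).fixingSubgroup k)) a v :=
    dens_transfer (M := p ^ m) ht (fun n k => hpos _ k (hfin n k)) (fun n k => (hcmp n k).2.1)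
      (fun n k => (hcmp n k).2.2) hK
  refine dens_all hK2 hL fun n j => ?_
  have i1 := hE n
  have i2 : FiniteDimensional K (L' ⊔ E n : IntermediateField K Ω) :=
    IntermediateField.finiteDimensional_sup L' (E n)
  have h := level_gen (p := p)
    (Loc Ω T ∩ ((L' ⊔ E n).fixingSubgroup : Set (Ω ≃ₐ[K] Ω))) (hle n) (hn n)
    (L' ⊔ E n).fixingSubgroup_isOpen (hidx n) (by
      rintro σ ⟨⟨W, hW⟩, hσ⟩ x hx
      refine ⟨⟨_, loc_conj hW x⟩, ?_⟩
      exact Subgroup.mem_subgroupOf.1 ((hn n).conj_mem ⟨σ, hle n hσ⟩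
        (Subgroup.mem_subgroupOf.2 hσ) ⟨x, hx⟩)) (fun σ hσ _ => hσ.2) (fun k => by
      rw [card_restrict]
      exact hpos _ k (hfin' n k)) j
  simp only [card_restrict] at h
  exact h

end pair

end Pool.Agent.Y194.MU
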