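import Pool.Agent.Y194.MU.Seq

/-!
# No condition above `S`, decomposition groups above `T`, inertia groups elsewhere
-/

set_option autoImplicit false

open IsDedekindDomain NumberField Matrix Filter Topology

namespace Pool.Agent.Y194.MU

open Finset
open Pool.Agent.Y194.TS

section val

variable {Ω : Type} [Field Ω] {K : Type} [Field K] [Algebra K Ω]

/-- the local group at the valuation ring `V` of `Ω`: the trivial group, if `V` lies above an element of `S`; otherwise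
the decomposition group, if `V` lies above an element of `T`, and the inertia group, if not -/
def LocST (S T : Set (HeightOneSpectrum (𝓞 K))) (V : ValuationSubring Ω) :
    Subgroup (Ω ≃ₐ[K] Ω) where
  carrier := {σ | σ = 1 ∨ ((∀ 𝔭 ∈ S, ¬ Above V 𝔭) ∧ σ ∈ LocGp T V)}
  one_mem' := Or.inl rfl
  mul_mem' := by
    rintro σ τ (rfl | ⟨h1, h2⟩) (rfl | ⟨h3, h4⟩)
    · exact Or.inl (mul_one 1)
    · exact Or.inr ⟨h3, by rw [one_mul]; exact h4⟩
    · exact Or.inr ⟨h1, by rw [mul_one]; exact h2⟩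
    · exact Or.inr ⟨h1, (LocGp T V).mul_mem h2 h4⟩
  inv_mem' := by
    rintro σ (rfl | ⟨h1, h2⟩)
    · exact Or.inl inv_one
    · exact Or.inr ⟨h1, (LocGp T V).inv_mem h2⟩

lemma above_conj {V : ValuationSubring Ω} {𝔭 : HeightOneSpectrum (𝓞 K)} (τ : Ω ≃ₐ[K] Ω)
    (h : Above (conjV τ V) 𝔭) : Above V 𝔭 := by
  intro x hx
  have h1 := h x hx
  unfold InMax at h1 ⊢
  rcases h1 with h1 | h1
  · exact Or.inl h1
  · right
    intro h2
    apply h1
    rw [mem_conjV, map_inv₀, AlgEquiv.commutes]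
    exact h2

lemma locST_conj {S T : Set (HeightOneSpectrum (𝓞 K))} {V : ValuationSubring Ω}
    {σ : Ω ≃ₐ[K] Ω} (hσ : σ ∈ LocST S T V) (τ : Ω ≃ₐ[K] Ω) :
    τ * σ * τ⁻¹ ∈ LocST S T (conjV τ V) := by
  rcases hσ with rfl | ⟨h1, h2⟩
  · left
    rw [mul_one, mul_inv_cancel]
  · exact Or.inr ⟨fun 𝔭 h𝔭 h => h1 𝔭 h𝔭 (above_conj τ h), loc_conj h2 τ⟩

/-- the union of these groups -/
def UST (Ω : Type) [Field Ω] [Algebra K Ω] (S T : Set (HeightOneSpectrum (𝓞 K))) :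
    Set (Ω ≃ₐ[K] Ω) := {σ | ∃ V : ValuationSubring Ω, σ ∈ LocST S T V}

/-- at most `t` places of the fixed field of `U` are exceptional in the fixed field of `U'`: the valuation rings of
`Ω` whose local group meets `U` outside `U'` form at most `t` conjugacy classes under `U` -/
def FewST (S T : Set (HeightOneSpectrum (𝓞 K))) (U U' : Subgroup (Ω ≃ₐ[K] Ω)) (t : ℕ) : Prop :=
  ∃ R : Finset (ValuationSubring Ω), R.card ≤ t ∧ ∀ V : ValuationSubring Ω,
    (∃ σ ∈ LocST S T V, σ ∈ U ∧ σ ∉ U') → ∃ W ∈ R, ∃ τ ∈ U, V = conjV τ W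

/-- the homomorphisms `U → ℤ/q` which are locally constant and kill the local groups -/
abbrev SChars (S T : Set (HeightOneSpectrum (𝓞 K))) (U : Subgroup (Ω ≃ₐ[K] Ω)) (q : ℕ) :
    Type :=
  {f : U → ZMod q // Char {σ : U | (σ : Ω ≃ₐ[K] Ω) ∈ UST Ω S T} f}

end val

section level

variable {K Ω : Type} [Field K] [Field Ω] [Algebra K Ω] {p : ℕ} [hp : Fact p.Prime]

lemma card_restrictST (S T : Set (HeightOneSpectrum (𝓞 K))) (V : Subgroup (Ω ≃ₐ[K] Ω))
    (k : ℕ) : Nat.card (Ch p (UST Ω S T ∩ V) V k) = Nat.card (SChars S T V (p ^ k)) := by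
  have h : {σ : V | (σ : Ω ≃ₐ[K] Ω) ∈ UST Ω S T ∩ V} =
      {σ : V | (σ : Ω ≃ₐ[K] Ω) ∈ UST Ω S T} := by
    ext σ
    exact ⟨fun h => h.1, fun h => ⟨h, σ.2⟩⟩
  show Nat.card {f : V → ZMod (p ^ k) // Char {σ : V | (σ : Ω ≃ₐ[K] Ω) ∈ UST Ω S T ∩ V} f} = _
  rw [h]

/-- **finite level** -/
theorem finiteST [IsGalois K Ω] (S T : Set (HeightOneSpectrum (𝓞 K)))
    {U V : Subgroup (Ω ≃ₐ[K] Ω)} (h : V ≤ U) (hn : (V.subgroupOf U).Normal)
    (hVo : IsOpen (V : Set (Ω ≃ₐ[K] Ω))) {m : ℕ} (hidx : V.relIndex U = p ^ m) {t : ℕ}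
    (hfew : FewST S T U V t) (hU : ∀ k, Finite (SChars S T U (p ^ k)))
    (hV : ∀ k, Finite (SChars S T V (p ^ k))) (j : ℕ) :
    DD p (fun k => Nat.card (SChars S T V (p ^ k))) j +
      ((p : ℝ) ^ m - 1) * DD p (fun k => p ^ (1 * k)) j ≤
    (p : ℝ) ^ m * (DD p (fun k => Nat.card (SChars S T U (p ^ k))) j +
      t * m * Real.log p) := by
  have hp0 : (0 : ℝ) < p := by exact_mod_cast hp.out.pos
  have hpos : ∀ (W : Subgroup (Ω ≃ₐ[K] Ω)) (k : ℕ), Finite (SChars S T W (p ^ k)) →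
      Nat.card (SChars S T W (p ^ k)) ≠ 0 := by
    intro W k hW
    have h2 : Nonempty (SChars S T W (p ^ k)) :=
      ⟨⟨0, fun x y => (add_zero (0 : ZMod (p ^ k))).symm, IsLocallyConstant.const 0,
        fun _ _ => rfl⟩⟩
    exact Nat.card_pos.ne'
  have hi0 : (V.subgroupOf U).index ≠ 0 := by
    have : (V.subgroupOf U).index = p ^ m := hidx
    rw [this]
    exact (pow_pos hp.out.pos m).ne'
  have hfi : (V.subgroupOf U).FiniteIndex := ⟨hi0⟩
  have hq : Finite (U ⧸ V.subgroupOf U) := Subgroup.finite_quotient_of_finiteIndex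
  have hcardq : Nat.card (U ⧸ V.subgroupOf U) = p ^ m := hidx
  obtain ⟨R, hR, hcov⟩ := hfew
  have hcov2 : ∀ j ∈ ({σ : U | (σ : Ω ≃ₐ[K] Ω) ∈ UST Ω S T} : Set U),
      j ∈ ({σ : U | (σ : Ω ≃ₐ[K] Ω) ∈ UST Ω S T ∩ V} : Set U) ∨
        ∃ r : R, ∃ u : U, u⁻¹ * j * u ∈ (LocST S T r.1).subgroupOf U := by
    rintro ⟨j, hjU⟩ ⟨X, hj⟩
    by_cases hjV : j ∈ V
    · exact Or.inl ⟨⟨X, hj⟩, hjV⟩
    · obtain ⟨W, hW, τ, hτ, hX⟩ := hcov X ⟨j, hj, hjU, hjV⟩
      refine Or.inr ⟨⟨W, hW⟩, ⟨τ, hτ⟩, ?_⟩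
      show τ⁻¹ * j * τ ∈ LocST S T W
      have h1 := locST_conj hj τ⁻¹
      rw [hX, conjV_inv, inv_inv] at h1
      exact h1
  have hne : ∀ k, NeZero (p ^ k) := fun k => ⟨(pow_pos hp.out.pos k).ne'⟩
  have hnz : ∀ k, Nat.card (Ch p (UST Ω S T ∩ V) U k) ≠ 0 := by
    intro k
    have := hne k
    exact (card_cmp (q := p ^ k) (J₁ := {σ : U | (σ : Ω ≃ₐ[K] Ω) ∈ UST Ω S T ∩ V})
      (J₂ := {σ : U | (σ : Ω ≃ₐ[K] Ω) ∈ UST Ω S T}) (V.subgroupOf U) (R := R)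
      (fun W => (LocST S T W.1).subgroupOf U) (fun W x hx hxV => ⟨⟨W.1, hx⟩, hxV⟩)
      (fun x hx => hx.1) hcov2 (hU k)).1
  have hsharp : ∀ k, Nat.card (Ch p (UST Ω S T ∩ V) U k) ≤
      Nat.card (SChars S T U (p ^ k)) * (p ^ m) ^ t := by
    intro k
    have := hne k
    have h1 := card_sharp (q := p ^ k) (J₁ := {σ : U | (σ : Ω ≃ₐ[K] Ω) ∈ UST Ω S T ∩ V})
      (J₂ := {σ : U | (σ : Ω ≃ₐ[K] Ω) ∈ UST Ω S T}) (V.subgroupOf U) (R := R)
      (fun W => (LocST S T W.1).subgroupOf U) (fun W x hx hxV => ⟨⟨W.1, hx⟩, hxV⟩)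
      hcov2 (hU k)
    refine h1.trans (Nat.mul_le_mul_left _ ?_)
    rw [hcardq, Nat.card_eq_fintype_card, Fintype.card_coe]
    exact Nat.pow_le_pow_right (pow_pos hp.out.pos m) hR
  have h1 := level_gen2 (p := p) (UST Ω S T ∩ (V : Set (Ω ≃ₐ[K] Ω))) h hn hVo hidx (by
      rintro σ ⟨⟨W, hW⟩, hσ⟩ x hx
      refine ⟨⟨_, locST_conj hW x⟩, ?_⟩
      exact Subgroup.mem_subgroupOf.1 (hn.conj_mem ⟨σ, h hσ⟩
        (Subgroup.mem_subgroupOf.2 hσ) ⟨x, hx⟩)) (fun σ hσ _ => hσ.2) (fun k => by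
      rw [card_restrictST]
      exact hpos _ k (hV k)) j
  simp only [card_restrictST] at h1
  have h2 : DD p (fun k => Nat.card (Ch p (UST Ω S T ∩ (V : Set (Ω ≃ₐ[K] Ω))) U k)) j ≤
      DD p (fun k => Nat.card (SChars S T U (p ^ k))) j + t * m * Real.log p := by
    refine DD_close ?_ (fun k => ?_) j
    · have e1 : Nat.card (Ch p (UST Ω S T ∩ (V : Set (Ω ≃ₐ[K] Ω))) U 0) = 1 := card_zero _ _
      have e2 : Nat.card (SChars S T U (p ^ 0)) = 1 := card_zero (p := p) (UST Ω S T) U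
      simp only [e1, e2]
    · have hN : (0 : ℝ) < Nat.card (SChars S T U (p ^ k)) := by
        exact_mod_cast Nat.pos_of_ne_zero (hpos _ k (hU k))
      have hN2 : (0 : ℝ) < Nat.card (Ch p (UST Ω S T ∩ (V : Set (Ω ≃ₐ[K] Ω))) U k) := by
        exact_mod_cast Nat.pos_of_ne_zero (hnz k)
      have h5 : (Nat.card (Ch p (UST Ω S T ∩ (V : Set (Ω ≃ₐ[K] Ω))) U k) : ℝ) ≤
          (Nat.card (SChars S T U (p ^ k)) : ℝ) * ((p : ℝ) ^ m) ^ t := by
        exact_mod_cast hsharp k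
      have h6 := Real.log_le_log hN2 h5
      rw [Real.log_mul hN.ne' (by positivity), Real.log_pow, Real.log_pow] at h6
      calc _ ≤ _ := h6
        _ = _ := by ring
  have h3 : (0 : ℝ) ≤ (p : ℝ) ^ m := by positivity
  exact h1.trans (mul_le_mul_of_nonneg_left h2 h3)

/-- the truncated inequality at finite level -/
theorem truncST [IsGalois K Ω] (S T : Set (HeightOneSpectrum (𝓞 K)))
    {U V : Subgroup (Ω ≃ₐ[K] Ω)} (h : V ≤ U) (hn : (V.subgroupOf U).Normal)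
    (hVo : IsOpen (V : Set (Ω ≃ₐ[K] Ω))) {m : ℕ} (hidx : V.relIndex U = p ^ m) {t : ℕ}
    (hfew : FewST S T U V t) {a a' : ℕ} {v v' : Multiset ℕ}
    (hv : ∀ k, Finite (SChars S T U (p ^ k)) ∧
      Nat.card (SChars S T U (p ^ k)) = p ^ (a * k + (v.map (fun i => min k i)).sum))
    (hv' : ∀ k, Finite (SChars S T V (p ^ k)) ∧
      Nat.card (SChars S T V (p ^ k)) = p ^ (a' * k + (v'.map (fun i => min k i)).sum)) (j : ℕ) :
    trunc p j a' v' + ((p : ℝ) ^ m - 1) * (1 - ((p : ℝ)⁻¹) ^ j) ≤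
      (p : ℝ) ^ m * (trunc p j a v + t * m * (1 - (p : ℝ)⁻¹)) := by
  have hp2 : (2 : ℝ) ≤ p := by exact_mod_cast hp.out.two_le
  have hlog : 0 < Real.log p := Real.log_pos (by linarith)
  have hinv : (p : ℝ)⁻¹ < 1 := inv_lt_one_of_one_lt₀ (by linarith)
  have h := finiteST (p := p) S T h hn hVo hidx hfew
    (fun k => (hv k).1) (fun k => (hv' k).1) j
  have e1 : (fun k => Nat.card (SChars S T U (p ^ k))) = typ p a v := by
    funext k
    rw [(hv k).2]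
    rfl
  have e2 : (fun k => Nat.card (SChars S T V (p ^ k))) = typ p a' v' := by
    funext k
    rw [(hv' k).2]
    rfl
  have e3 : (fun k => p ^ (1 * k)) = typ p 1 0 := by
    funext k
    unfold typ
    rw [Multiset.map_zero, Multiset.sum_zero, add_zero]
  rw [e1, e2, e3] at h
  have h2 := mul_le_mul_of_nonneg_left h (show 0 ≤ 1 - (p : ℝ)⁻¹ by linarith)
  have d1 := DD_typ (p := p) a v j
  have d2 := DD_typ (p := p) a' v' j
  have d3 := DD_typ (p := p) 1 0 j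
  have d4 : trunc p j 1 0 = 1 - ((p : ℝ)⁻¹) ^ j := by
    unfold trunc
    rw [Multiset.map_zero, Multiset.sum_zero, add_zero, Nat.cast_one, one_mul]
  have h3 : Real.log p * (trunc p j a' v' + ((p : ℝ) ^ m - 1) * (1 - ((p : ℝ)⁻¹) ^ j)) ≤
      Real.log p * ((p : ℝ) ^ m * (trunc p j a v + t * m * (1 - (p : ℝ)⁻¹))) := by
    calc _ = Real.log p * trunc p j a' v' +
          ((p : ℝ) ^ m - 1) * (Real.log p * trunc p j 1 0) := by rw [d4]; ring
      _ = (1 - (p : ℝ)⁻¹) * (DD p (typ p a' v') j +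
          ((p : ℝ) ^ m - 1) * DD p (typ p 1 0) j) := by rw [← d2, ← d3]; ring
      _ ≤ _ := h2
      _ = (p : ℝ) ^ m * ((1 - (p : ℝ)⁻¹) * DD p (typ p a v) j +
          t * m * (1 - (p : ℝ)⁻¹) * Real.log p) := by ring
      _ = _ := by rw [d1]; ring
  exact le_of_mul_le_mul_left h3 hlog

lemma trunc_lim (a : ℕ) (w : Multiset ℕ) :
    Tendsto (fun j => trunc p j a w) atTop (𝓝 (full p a w)) := by
  have hp2 : (2 : ℝ) ≤ p := by exact_mod_cast hp.out.two_le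
  have hinv : (p : ℝ)⁻¹ < 1 := inv_lt_one_of_one_lt₀ (by linarith)
  have hinv0 : (0 : ℝ) ≤ (p : ℝ)⁻¹ := by positivity
  obtain ⟨B, hB⟩ : ∃ B, ∀ i ∈ w, i ≤ B :=
    ⟨w.sum, fun i hi => Multiset.single_le_sum (fun _ _ => Nat.zero_le _) i hi⟩
  have hz : Tendsto (fun j : ℕ => ((p : ℝ)⁻¹) ^ j) atTop (𝓝 0) :=
    tendsto_pow_atTop_nhds_zero_of_lt_one hinv0 hinv
  have h1 : Tendsto (fun j : ℕ => (a : ℝ) * (1 - ((p : ℝ)⁻¹) ^ j) +
      (w.map (fun i => 1 - ((p : ℝ)⁻¹) ^ i)).sum) atTop (𝓝 (full p a w)) := by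
    have := ((hz.const_sub 1).const_mul (a : ℝ)).add_const
      (w.map (fun i => 1 - ((p : ℝ)⁻¹) ^ i)).sum
    rwa [sub_zero, mul_one] at this
  refine h1.congr' ?_
  filter_upwards [eventually_ge_atTop B] with j hj
  unfold trunc
  congr 2
  exact (Multiset.map_congr rfl fun i hi => by rw [min_eq_right ((hB i hi).trans hj)]).symm

/-- all the inequalities for a pair of fields -/
theorem pairST [IsGalois K Ω] (S T : Set (HeightOneSpectrum (𝓞 K)))
    {L L' : IntermediateField K Ω} [FiniteDimensional K L'] (hLL : L ≤ L')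
    (hn : (L'.fixingSubgroup.subgroupOf L.fixingSubgroup).Normal) {m : ℕ}
    (hdeg : Module.finrank K L' = p ^ m * Module.finrank K L) {t : ℕ}
    (hfew : FewST S T L.fixingSubgroup L'.fixingSubgroup t) {a a' : ℕ} {v v' : Multiset ℕ}
    (hv : ∀ k, Finite (SChars S T L.fixingSubgroup (p ^ k)) ∧ Nat.card
      (SChars S T L.fixingSubgroup (p ^ k)) = p ^ (a * k + (v.map (fun i => min k i)).sum))
    (hv' : ∀ k, Finite (SChars S T L'.fixingSubgroup (p ^ k)) ∧ Nat.card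
      (SChars S T L'.fixingSubgroup (p ^ k)) = p ^ (a' * k + (v'.map (fun i => min k i)).sum)) :
    (∀ j, trunc p j a' v' + ((p : ℝ) ^ m - 1) * (1 - ((p : ℝ)⁻¹) ^ j) ≤
      (p : ℝ) ^ m * (trunc p j a v + t * m * (1 - (p : ℝ)⁻¹))) ∧
    full p a' v' + ((p : ℝ) ^ m - 1) ≤
      (p : ℝ) ^ m * (full p a v + t * m * (1 - (p : ℝ)⁻¹)) := by
  have hp2 : (2 : ℝ) ≤ p := by exact_mod_cast hp.out.two_le
  have hinv : (p : ℝ)⁻¹ < 1 := inv_lt_one_of_one_lt₀ (by linarith)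
  have hinv0 : (0 : ℝ) ≤ (p : ℝ)⁻¹ := by positivity
  have hle : L'.fixingSubgroup ≤ L.fixingSubgroup :=
    IntermediateField.fixingSubgroup_antitone hLL
  have hidx : L'.fixingSubgroup.relIndex L.fixingSubgroup = p ^ m := by
    have i0 : FiniteDimensional K L :=
      FiniteDimensional.of_injective (IntermediateField.inclusion hLL).toLinearMap
        (IntermediateField.inclusion_injective hLL)
    have h1 := Subgroup.relIndex_mul_index hle
    rw [← IntermediateField.finrank_eq_fixingSubgroup_index,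
      ← IntermediateField.finrank_eq_fixingSubgroup_index, hdeg] at h1
    exact Nat.eq_of_mul_eq_mul_right (Module.finrank_pos) h1
  have key := truncST (p := p) S T hle hn L'.fixingSubgroup_isOpen hidx hfew hv hv'
  refine ⟨key, ?_⟩
  have hz : Tendsto (fun j : ℕ => ((p : ℝ)⁻¹) ^ j) atTop (𝓝 0) :=
    tendsto_pow_atTop_nhds_zero_of_lt_one hinv0 hinv
  have l1 := (trunc_lim (p := p) a' v').add ((hz.const_sub 1).const_mul ((p : ℝ) ^ m - 1))
  have l2 := ((trunc_lim (p := p) a v).add_const (t * m * (1 - (p : ℝ)⁻¹))).const_mul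
    ((p : ℝ) ^ m)
  have l3 := le_of_tendsto_of_tendsto' l1 l2 key
  rwa [sub_zero, mul_one] at l3

end level

end Pool.Agent.Y194.MU
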