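import Pool.Agent.Y194.MU.Sharp

/-!
# Convergence of the normalised weights in a tower
-/

set_option autoImplicit false

open IsDedekindDomain NumberField Matrix Filter Topology

namespace Pool.Agent.Y194.MU

open Finset
open Pool.Agent.Y194.TS

/-- an almost non-increasing sequence of non-negative numbers converges -/
lemma conv_almost {x s : ℕ → ℝ} (hx : ∀ n, 0 ≤ x n) (hs0 : ∀ n, 0 ≤ s n) (hs : Summable s)
    (h : ∀ n, x (n + 1) ≤ x n + s n) : ∃ l : ℝ, Tendsto x atTop (𝓝 l) := by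
  let S : ℕ → ℝ := fun n => ∑ k ∈ range n, s k
  have hanti : Antitone fun n => x n - S n := by
    refine antitone_nat_of_succ_le fun n => ?_
    show x (n + 1) - ∑ k ∈ range (n + 1), s k ≤ x n - ∑ k ∈ range n, s k
    rw [sum_range_succ]
    linarith [h n]
  have hS : Tendsto S atTop (𝓝 (∑' k, s k)) := hs.hasSum.tendsto_sum_nat
  have hb : BddBelow (Set.range fun n => x n - S n) := by
    refine ⟨- ∑' k, s k, ?_⟩
    rintro _ ⟨n, rfl⟩
    have h1 : S n ≤ ∑' k, s k := hs.sum_le_tsum _ fun k _ => hs0 k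
    show - ∑' k, s k ≤ x n - S n
    linarith [hx n]
  have h2 := (tendsto_atTop_ciInf hanti hb).add hS
  refine ⟨_, h2.congr fun n => ?_⟩
  show x n - S n + S n = x n
  ring

section seq

variable {p : ℕ} [hp : Fact p.Prime]

/-- convergence of the normalised numbers of summands -/
lemma seq_conv2 {D : ℕ → ℕ} {a : ℕ → ℕ} {v : ℕ → Multiset ℕ}
    (h1 : ∀ j, ∃ l : ℝ, Tendsto (fun r => trunc p j (a r) (v r) / D r) atTop (𝓝 l)) (j : ℕ) :
    (∃ l : ℝ, Tendsto (fun r => ((a r : ℝ) +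
      (Multiset.countP (fun i => j < i) (v r) : ℕ)) / D r) atTop (𝓝 l)) ∧
    ∃ l : ℝ, Tendsto (fun r => (Multiset.count (j + 1) (v r) : ℝ) / D r) atTop (𝓝 l) := by
  have hp2 : (2 : ℝ) ≤ p := by exact_mod_cast hp.out.two_le
  have hinv : (p : ℝ)⁻¹ < 1 := inv_lt_one_of_one_lt₀ (by linarith)
  have hp0 : ((p : ℝ)⁻¹) ≠ 0 := inv_ne_zero (by linarith)
  have h2 : ∀ j, ∃ l : ℝ, Tendsto (fun r => ((a r : ℝ) +
      (Multiset.countP (fun i => j < i) (v r) : ℕ)) / D r) atTop (𝓝 l) := by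
    intro j
    obtain ⟨l1, hl1⟩ := h1 j
    obtain ⟨l2, hl2⟩ := h1 (j + 1)
    refine ⟨(((p : ℝ)⁻¹) ^ j * (1 - (p : ℝ)⁻¹))⁻¹ * (l2 - l1), ?_⟩
    refine ((hl2.sub hl1).const_mul _).congr fun r => ?_
    have hne : ((p : ℝ)⁻¹) ^ j * (1 - (p : ℝ)⁻¹) ≠ 0 :=
      mul_ne_zero (pow_ne_zero _ hp0) (by linarith)
    rw [← sub_div, trunc_diff, ← mul_div_assoc, inv_mul_cancel_left₀ hne]
  refine ⟨h2 j, ?_⟩
  obtain ⟨l1, hl1⟩ := h2 j
  obtain ⟨l2, hl2⟩ := h2 (j + 1)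
  refine ⟨l1 - l2, (hl1.sub hl2).congr fun r => ?_⟩
  rw [← sub_div, count_eq j (v r)]
  congr 1
  push_cast
  ring

end seq

section finite

variable {K Ω : Type} [Field K] [Field Ω] [Algebra K Ω] {p : ℕ} [hp : Fact p.Prime]

/-- the truncated inequality at finite level -/
theorem trunc_level [IsGalois K Ω] (T : Set (HeightOneSpectrum (𝓞 K)))
    {U V : Subgroup (Ω ≃ₐ[K] Ω)} (h : V ≤ U) (hn : (V.subgroupOf U).Normal)
    (hVo : IsOpen (V : Set (Ω ≃ₐ[K] Ω))) {m : ℕ} (hidx : V.relIndex U = p ^ m) {t : ℕ}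
    (hfew : FewPlaces T U V t) {v v' : Multiset ℕ}
    (hv : ∀ k, Finite (LChars T U (p ^ k)) ∧
      Nat.card (LChars T U (p ^ k)) = p ^ (v.map (fun i => min k i)).sum)
    (hv' : ∀ k, Finite (LChars T V (p ^ k)) ∧
      Nat.card (LChars T V (p ^ k)) = p ^ (v'.map (fun i => min k i)).sum) (j : ℕ) :
    trunc p j 0 v' + ((p : ℝ) ^ m - 1) * (1 - ((p : ℝ)⁻¹) ^ j) ≤
      (p : ℝ) ^ m * (trunc p j 0 v + t * m * (1 - (p : ℝ)⁻¹)) := by
  have hp2 : (2 : ℝ) ≤ p := by exact_mod_cast hp.out.two_le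
  have hlog : 0 < Real.log p := Real.log_pos (by linarith)
  have hinv : (p : ℝ)⁻¹ < 1 := inv_lt_one_of_one_lt₀ (by linarith)
  have h := finite_level (p := p) T h hn hVo hidx hfew
    (fun k => (hv k).1) (fun k => (hv' k).1) j
  have e1 : (fun k => Nat.card (LChars T U (p ^ k))) = typ p 0 v := by
    funext k
    rw [(hv k).2]
    unfold typ
    rw [zero_mul, zero_add]
  have e2 : (fun k => Nat.card (LChars T V (p ^ k))) = typ p 0 v' := by
    funext k
    rw [(hv' k).2]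
    unfold typ
    rw [zero_mul, zero_add]
  have e3 : (fun k => p ^ (1 * k)) = typ p 1 0 := by
    funext k
    unfold typ
    rw [Multiset.map_zero, Multiset.sum_zero, add_zero]
  rw [e1, e2, e3] at h
  have h2 := mul_le_mul_of_nonneg_left h (show 0 ≤ 1 - (p : ℝ)⁻¹ by linarith)
  have d1 := DD_typ (p := p) 0 v j
  have d2 := DD_typ (p := p) 0 v' j
  have d3 := DD_typ (p := p) 1 0 j
  have d4 : trunc p j 1 0 = 1 - ((p : ℝ)⁻¹) ^ j := by
    unfold trunc
    rw [Multiset.map_zero, Multiset.sum_zero, add_zero, Nat.cast_one, one_mul]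
  have h3 : Real.log p * (trunc p j 0 v' + ((p : ℝ) ^ m - 1) * (1 - ((p : ℝ)⁻¹) ^ j)) ≤
      Real.log p * ((p : ℝ) ^ m * (trunc p j 0 v + t * m * (1 - (p : ℝ)⁻¹))) := by
    calc _ = Real.log p * trunc p j 0 v' +
          ((p : ℝ) ^ m - 1) * (Real.log p * trunc p j 1 0) := by rw [d4]; ring
      _ = (1 - (p : ℝ)⁻¹) * (DD p (typ p 0 v') j +
          ((p : ℝ) ^ m - 1) * DD p (typ p 1 0) j) := by rw [← d2, ← d3]; ring
      _ ≤ _ := h2
      _ = (p : ℝ) ^ m * ((1 - (p : ℝ)⁻¹) * DD p (typ p 0 v) j +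
          t * m * (1 - (p : ℝ)⁻¹) * Real.log p) := by ring
      _ = _ := by rw [d1]; ring
  exact le_of_mul_le_mul_left h3 hlog

end finite

end Pool.Agent.Y194.MU
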