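import Pool.Agent.Y194.MU.Rpair

/-!
# The inequality at finite level, with an explicit contribution of the ramified places
-/

set_option autoImplicit false

open IsDedekindDomain NumberField Matrix Filter Topology

namespace Pool.Agent.Y194.MU

open Finset
open Pool.Agent.Y194.TS

section homs

/-- a finite group has at most as many homomorphisms to `ℂ` as elements -/
lemma card_mhom {Q : Type} [Group Q] [Finite Q] :
    Finite (Q →* ℂ) ∧ Nat.card (Q →* ℂ) ≤ Nat.card Q := by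
  have := Fintype.ofFinite Q
  have hli := linearIndependent_monoidHom Q ℂ
  have hf : Finite (Q →* ℂ) := hli.finite
  have := Fintype.ofFinite (Q →* ℂ)
  refine ⟨hf, ?_⟩
  have h := hli.fintype_card_le_finrank
  rw [Module.finrank_fintype_fun_eq_card] at h
  rw [Nat.card_eq_fintype_card, Nat.card_eq_fintype_card]
  exact h

/-- the homomorphisms `D → ℤ/q` killing `H` -/
def BB {D : Type} [Group D] (H : Subgroup D) (q : ℕ) : AddSubgroup (D → ZMod q) where
  carrier := {g | (∀ x y, g (x * y) = g x + g y) ∧ ∀ x ∈ H, g x = 0}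
  zero_mem' := ⟨fun _ _ => (add_zero (0 : ZMod q)).symm, fun _ _ => rfl⟩
  add_mem' := by
    rintro f g ⟨a1, a3⟩ ⟨b1, b3⟩
    refine ⟨fun x y => ?_, fun j hj => ?_⟩
    · show f (x * y) + g (x * y) = f x + g x + (f y + g y)
      rw [a1, b1]
      abel
    · show f j + g j = 0
      rw [a3 j hj, b3 j hj, add_zero]
  neg_mem' := by
    rintro f ⟨a1, a3⟩
    refine ⟨fun x y => ?_, fun j hj => ?_⟩
    · show - f (x * y) = - f x + - f y
      rw [a1]
      abel
    · show - f j = 0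
      rw [a3 j hj, neg_zero]

lemma card_BB {D : Type} [Group D] (H : Subgroup D) [H.Normal] [Finite (D ⧸ H)] (q : ℕ)
    [NeZero q] : Finite (BB H q) ∧ Nat.card (BB H q) ≤ Nat.card (D ⧸ H) := by
  have hone : ∀ g : BB H q, g.1 1 = 0 := fun g => g.2.2 1 H.one_mem
  let φ : BB H q → (D →* ℂ) := fun g =>
    { toFun := fun x => ZMod.stdAddChar (g.1 x)
      map_one' := by rw [hone, AddChar.map_zero_eq_one]
      map_mul' := fun x y => by rw [g.2.1, AddChar.map_add_eq_mul] }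
  have hφ : ∀ g : BB H q, H ≤ (φ g).ker := by
    intro g x hx
    rw [MonoidHom.mem_ker]
    show ZMod.stdAddChar (g.1 x) = 1
    rw [g.2.2 x hx, AddChar.map_zero_eq_one]
  let Φ : BB H q → (D ⧸ H →* ℂ) := fun g => QuotientGroup.lift H (φ g) (hφ g)
  have hinj : Function.Injective Φ := by
    intro g g' h
    apply Subtype.ext
    funext x
    have h1 : Φ g (x : D ⧸ H) = Φ g' (x : D ⧸ H) := by rw [h]
    exact ZMod.injective_stdAddChar h1
  obtain ⟨h1, h2⟩ := card_mhom (Q := D ⧸ H)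
  exact ⟨Finite.of_injective Φ hinj, (Nat.card_le_card_of_injective Φ hinj).trans h2⟩

variable {U : Type} [Group U] [TopologicalSpace U]

theorem card_sharp {q : ℕ} [NeZero q] {J₁ J₂ : Set U} (V : Subgroup U) [V.Normal]
    [Finite (U ⧸ V)]
    {R : Type} [Finite R] (D : R → Subgroup U) (hD : ∀ r, ∀ x ∈ D r, x ∈ V → x ∈ J₁)
    (hcov : ∀ j ∈ J₂, j ∈ J₁ ∨ ∃ r, ∃ u : U, u⁻¹ * j * u ∈ D r)
    (hfin : Finite (CG q J₂)) :
    Nat.card (CG q J₁) ≤ Nat.card (CG q J₂) * (Nat.card (U ⧸ V)) ^ Nat.card R := by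
  have hfi : V.FiniteIndex := Subgroup.finiteIndex_of_finite_quotient
  let B : R → Type := fun r => BB (V.subgroupOf (D r)) q
  have hB : ∀ r, Finite (B r) ∧ Nat.card (B r) ≤ Nat.card (U ⧸ V) := by
    intro r
    have hq : Finite (D r ⧸ V.subgroupOf (D r)) := Subgroup.finite_quotient_of_finiteIndex
    obtain ⟨h1, h2⟩ := card_BB (V.subgroupOf (D r)) q
    refine ⟨h1, h2.trans ?_⟩
    have h3 : V.relIndex (D r) ∣ V.index := Subgroup.relIndex_dvd_index_of_normal V (D r)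
    exact Nat.le_of_dvd (Nat.pos_of_ne_zero hfi.index_ne_zero) h3
  let Φ : CG q J₁ →+ (∀ r, BB (V.subgroupOf (D r)) q) :=
    { toFun := fun f r => ⟨fun x => f.1 x, fun x y => f.2.1 x y,
        fun x hx => f.2.2.2 _ (hD r x x.2 hx)⟩
      map_zero' := rfl
      map_add' := fun _ _ => rfl }
  have hker : ∀ f : CG q J₁, f ∈ Φ.ker → f.1 ∈ CG q J₂ := by
    rintro ⟨f, hf⟩ h
    have h0 : ∀ r, ∀ x ∈ D r, f x = 0 := fun r x hx =>
      congrFun (congrArg Subtype.val (congrFun (AddMonoidHom.mem_ker.1 h) r)) ⟨x, hx⟩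
    refine ⟨hf.1, hf.2.1, fun j hj => ?_⟩
    rcases hcov j hj with h1 | ⟨r, u, h1⟩
    · exact hf.2.2 j h1
    · have h4 := h0 r _ h1
      rw [hf.1, hf.1, char_inv hf] at h4
      calc f j = - f u + f j + f u := by abel
        _ = 0 := h4
  have hle : Nat.card Φ.ker ≤ Nat.card (CG q J₂) := by
    refine Nat.card_le_card_of_injective
      (fun f : Φ.ker => (⟨f.1.1, hker f.1 f.2⟩ : CG q J₂)) fun f g h => ?_
    exact Subtype.ext (Subtype.ext (congrArg (fun x : CG q J₂ => x.1) h))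
  have hc : Nat.card Φ.ker * Nat.card Φ.range = Nat.card (CG q J₁) := by
    rw [← AddSubgroup.index_ker]
    exact AddSubgroup.card_mul_index _
  rw [← hc]
  refine Nat.mul_le_mul hle ?_
  have hBf : ∀ r, Finite (BB (V.subgroupOf (D r)) q) := fun r => (hB r).1
  have h5 : Nat.card (∀ r, BB (V.subgroupOf (D r)) q) ≤ (Nat.card (U ⧸ V)) ^ Nat.card R := by
    have := Fintype.ofFinite R
    rw [Nat.card_pi, Nat.card_eq_fintype_card (α := R)]
    calc ∏ r, Nat.card (BB (V.subgroupOf (D r)) q) ≤ ∏ _r : R, Nat.card (U ⧸ V) :=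
          Finset.prod_le_prod' fun r _ => (hB r).2
      _ = _ := by rw [Finset.prod_const, Finset.card_univ]
  exact (Nat.card_le_card_of_injective (Subtype.val : Φ.range → _) Subtype.val_injective).trans h5

end homs

section num

variable {p : ℕ} [hp : Fact p.Prime]

lemma DD_close {N N₂ : ℕ → ℕ} {c : ℝ} (hz : Real.log (N₂ 0) = Real.log (N 0))
    (h : ∀ k, Real.log (N₂ k) ≤ Real.log (N k) + c) (j : ℕ) : DD p N₂ j ≤ DD p N j + c := by
  have hp1 : (1 : ℝ) ≤ p := by exact_mod_cast hp.out.one_le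
  have hinv : (p : ℝ)⁻¹ ≤ 1 := inv_le_one_of_one_le₀ hp1
  have hx : (0 : ℝ) ≤ (p : ℝ)⁻¹ := by positivity
  have key : DD p N₂ j - DD p N j ≤
      c - ((p : ℝ)⁻¹) ^ j * (c - (Real.log (N₂ j) - Real.log (N j))) := by
    induction j with
    | zero =>
      unfold DD
      rw [range_zero, sum_empty, sum_empty, hz, pow_zero]
      linarith
    | succ j ih =>
      have e1 : DD p N₂ (j + 1) = DD p N₂ j + ((p : ℝ)⁻¹) ^ j *
          (Real.log (N₂ (j + 1)) - Real.log (N₂ j)) := sum_range_succ _ _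
      have e2 : DD p N (j + 1) = DD p N j + ((p : ℝ)⁻¹) ^ j *
          (Real.log (N (j + 1)) - Real.log (N j)) := sum_range_succ _ _
      have h1 : 0 ≤ c - (Real.log (N₂ (j + 1)) - Real.log (N (j + 1))) := by
        linarith [h (j + 1)]
      have h2 : ((p : ℝ)⁻¹) ^ (j + 1) ≤ ((p : ℝ)⁻¹) ^ j := pow_le_pow_of_le_one hx hinv (Nat.le_succ j)
      have h3 := mul_le_mul_of_nonneg_right h2 h1
      rw [e1, e2]
      linarith
  have h1 : 0 ≤ ((p : ℝ)⁻¹) ^ j * (c - (Real.log (N₂ j) - Real.log (N j))) :=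
    mul_nonneg (pow_nonneg hx j) (by linarith [h j])
  linarith

end num

section level

variable {K Ω : Type} [Field K] [Field Ω] [Algebra K Ω] {p : ℕ} [hp : Fact p.Prime]

/-- the inequality for one pair of subgroups and a set of local conditions in the smaller one -/
theorem level_gen2 (J : Set (Ω ≃ₐ[K] Ω)) {U V : Subgroup (Ω ≃ₐ[K] Ω)} (h : V ≤ U)
    (hn : (V.subgroupOf U).Normal) (hVo : IsOpen (V : Set (Ω ≃ₐ[K] Ω))) {m : ℕ}
    (hidx : V.relIndex U = p ^ m) (hJc : ∀ j ∈ J, ∀ x ∈ U, x * j * x⁻¹ ∈ J)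
    (hun : ∀ σ ∈ J, σ ∈ U → σ ∈ V) (hfin : ∀ k, Nat.card (Ch p J V k) ≠ 0) (n : ℕ) :
    DD p (fun k => Nat.card (Ch p J V k)) n + ((p : ℝ) ^ m - 1) * DD p (fun k => p ^ (1 * k)) n ≤
      (p : ℝ) ^ m * DD p (fun k => Nat.card (Ch p J U k)) n := by
  have hp2 : (2 : ℝ) ≤ p := by exact_mod_cast hp.out.two_le
  have hlog : 0 < Real.log p := Real.log_pos (by linarith)
  let ρU : U →* GL (Fin 1) ℤ_[p] := 1
  have hρU : Continuous ρU := continuous_const
  let J' : Set U := {σ : U | (σ : Ω ≃ₐ[K] Ω) ∈ J}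
  have hNo : IsOpen ((V.subgroupOf U : Subgroup U) : Set U) :=
    hVo.preimage continuous_subtype_val
  have hcardN : ∀ k, Nat.card (tor p k (TT (AA ρU) (⊤ : Subgroup (V.subgroupOf U))
      ((↑) ⁻¹' J'))) = Nat.card (Ch p J V k) := by
    intro k
    rw [card_coc ρU (fun g : V.subgroupOf U => (g : U)) (fun _ _ => rfl) _ k]
    exact transfer_gen J h k
  have hcardP : ∀ k, Nat.card (tor p k (TT (AA ρU) (⊤ : Subgroup U) J')) =
      Nat.card (Ch p J U k) := by
    intro k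
    rw [card_coc ρU (fun g => g) (fun _ _ => rfl) J' k]
    exact card_char (q := p ^ k) (fun σ : U => (((1 : U →* GL (Fin 1) ℤ_[p]) σ :
      GL (Fin 1) ℤ_[p]) : Matrix (Fin 1) (Fin 1) ℤ_[p]).map (PadicInt.toZModPow k))
        (fun σ => one_red k σ) J'
  have hA : ∀ k, Nat.card (tor p k (⊤ : AddSubgroup (AA ρU))) = p ^ (1 * k) := card_AA ρU
  have hF1 : Fn p (TT (AA ρU) (⊤ : Subgroup (V.subgroupOf U)) ((↑) ⁻¹' J')) := by
    intro k
    refine Nat.finite_of_card_ne_zero ?_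
    rw [hcardN k]
    exact hfin k
  have hF2 : Fn p (⊤ : AddSubgroup (AA ρU)) := by
    intro k
    refine Nat.finite_of_card_ne_zero ?_
    rw [hA k]
    exact (pow_pos hp.out.pos _).ne'
  have h1 := main_ineq (l := p) (m := m) (P := U) (N := V.subgroupOf U) (A := AA ρU) (J := J')
    hNo (fun j hj => hun _ hj j.2) hidx (fun j hj x => hJc _ hj _ x.2)
    (fun j _ a => smul_triv ρU j rfl a) (fun a => smul_lc ρU
      (fun g : V.subgroupOf U => (g : U))
      (fun k => (rd_lc ρU hρU k).comp_continuous continuous_subtype_val) a) hF1 hF2 n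
  have h2 : (fun k => Nat.card (tor p k (⊤ : AddSubgroup (AA ρU)))) = fun k => p ^ (1 * k) :=
    funext hA
  have h3 : (fun k => Nat.card (tor p k (TT (AA ρU) (⊤ : Subgroup (V.subgroupOf U))
      ((↑) ⁻¹' J')))) = fun k => Nat.card (Ch p J V k) := funext hcardN
  have h4 : (fun k => Nat.card (tor p k (TT (AA ρU) (⊤ : Subgroup U) J'))) =
      fun k => Nat.card (Ch p J U k) := funext hcardP
  rw [h3, h4, h2] at h1
  exact h1

lemma card_zero (J : Set (Ω ≃ₐ[K] Ω)) (U : Subgroup (Ω ≃ₐ[K] Ω)) :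
    Nat.card (Ch p J U 0) = 1 := by
  have h1 : Subsingleton (ZMod (p ^ 0)) := by
    rw [pow_zero]
    infer_instance
  have h2 : Nonempty (Ch p J U 0) :=
    ⟨⟨0, fun x y => (add_zero (0 : ZMod (p ^ 0))).symm, IsLocallyConstant.const 0, fun _ _ => rfl⟩⟩
  have h3 : Subsingleton (Ch p J U 0) :=
    ⟨fun f g => Subtype.ext (funext fun x => Subsingleton.elim _ _)⟩
  exact Nat.card_eq_one_iff_unique.2 ⟨h3, h2⟩

/-- **finite level** -/
theorem finite_level [IsGalois K Ω] (T : Set (HeightOneSpectrum (𝓞 K)))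
    {U V : Subgroup (Ω ≃ₐ[K] Ω)} (h : V ≤ U) (hn : (V.subgroupOf U).Normal)
    (hVo : IsOpen (V : Set (Ω ≃ₐ[K] Ω))) {m : ℕ} (hidx : V.relIndex U = p ^ m) {t : ℕ}
    (hfew : FewPlaces T U V t) (hU : ∀ k, Finite (LChars T U (p ^ k)))
    (hV : ∀ k, Finite (LChars T V (p ^ k))) (j : ℕ) :
    DD p (fun k => Nat.card (LChars T V (p ^ k))) j +
      ((p : ℝ) ^ m - 1) * DD p (fun k => p ^ (1 * k)) j ≤
    (p : ℝ) ^ m * (DD p (fun k => Nat.card (LChars T U (p ^ k))) j +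
      t * m * Real.log p) := by
  have hp0 : (0 : ℝ) < p := by exact_mod_cast hp.out.pos
  have hpos : ∀ (W : Subgroup (Ω ≃ₐ[K] Ω)) (k : ℕ), Finite (LChars T W (p ^ k)) →
      Nat.card (LChars T W (p ^ k)) ≠ 0 := by
    intro W k hW
    have h2 : Nonempty (LChars T W (p ^ k)) :=
      ⟨⟨0, fun x y => (add_zero (0 : ZMod (p ^ k))).symm, IsLocallyConstant.const 0,
        fun _ _ => rfl⟩⟩
    exact Nat.card_pos.ne'
  have hi0 : (V.subgroupOf U).index ≠ 0 := by
    have : (V.subgroupOf U).index = p ^ m := hidx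
    rw [this]
    exact (pow_pos hp.out.pos m).ne'
  have hfi : (V.subgroupOf U).FiniteIndex := ⟨hi0⟩
  have hq : Finite (U ⧸ V.subgroupOf U) := Subgroup.finite_quotient_of_finiteIndex
  have hcardq : Nat.card (U ⧸ V.subgroupOf U) = p ^ m := hidx
  have hcmp := fun k => card_few hidx hfew k (hU k)
  have hsharp : ∀ k, Nat.card (Ch p (Loc Ω T ∩ V) U k) ≤
      Nat.card (LChars T U (p ^ k)) * (p ^ m) ^ t := by
    intro k
    obtain ⟨R, hR, hcov⟩ := hfew
    have hne : NeZero (p ^ k) := ⟨(pow_pos hp.out.pos k).ne'⟩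
    have h1 := card_sharp (q := p ^ k) (J₁ := {σ : U | (σ : Ω ≃ₐ[K] Ω) ∈ Loc Ω T ∩ V})
      (J₂ := {σ : U | (σ : Ω ≃ₐ[K] Ω) ∈ Loc Ω T}) (V.subgroupOf U) (R := R)
      (fun W => (LocGp T W.1).subgroupOf U) (fun W x hx hxV => ⟨⟨W.1, hx⟩, hxV⟩)
      (by
        rintro ⟨j, hjU⟩ ⟨X, hj⟩
        by_cases hjV : j ∈ V
        · exact Or.inl ⟨⟨X, hj⟩, hjV⟩
        · obtain ⟨W, hW, τ, hτ, hX⟩ := hcov X ⟨j, hj, hjU, hjV⟩
          refine Or.inr ⟨⟨W, hW⟩, ⟨τ, hτ⟩, ?_⟩
          show τ⁻¹ * j * τ ∈ LocGp T W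
          have h1 := loc_conj hj τ⁻¹
          rw [hX, conjV_inv, inv_inv] at h1
          exact h1) (hU k)
    refine h1.trans (Nat.mul_le_mul_left _ ?_)
    rw [hcardq, Nat.card_eq_fintype_card, Fintype.card_coe]
    exact Nat.pow_le_pow_right (pow_pos hp.out.pos m) hR
  have h1 := level_gen2 (p := p) (Loc Ω T ∩ (V : Set (Ω ≃ₐ[K] Ω))) h hn hVo hidx (by
      rintro σ ⟨⟨W, hW⟩, hσ⟩ x hx
      refine ⟨⟨_, loc_conj hW x⟩, ?_⟩
      exact Subgroup.mem_subgroupOf.1 (hn.conj_mem ⟨σ, h hσ⟩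
        (Subgroup.mem_subgroupOf.2 hσ) ⟨x, hx⟩)) (fun σ hσ _ => hσ.2) (fun k => by
      rw [card_restrict]
      exact hpos _ k (hV k)) j
  simp only [card_restrict] at h1
  have h2 : DD p (fun k => Nat.card (Ch p (Loc Ω T ∩ (V : Set (Ω ≃ₐ[K] Ω))) U k)) j ≤
      DD p (fun k => Nat.card (LChars T U (p ^ k))) j + t * m * Real.log p := by
    refine DD_close ?_ (fun k => ?_) j
    · have e1 : Nat.card (Ch p (Loc Ω T ∩ (V : Set (Ω ≃ₐ[K] Ω))) U 0) = 1 := card_zero _ _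
      have e2 : Nat.card (LChars T U (p ^ 0)) = 1 := card_zero (p := p) (Loc Ω T) U
      simp only [e1, e2]
    · have hN : (0 : ℝ) < Nat.card (LChars T U (p ^ k)) := by
        exact_mod_cast Nat.pos_of_ne_zero (hpos _ k (hU k))
      have hN2 : (0 : ℝ) < Nat.card (Ch p (Loc Ω T ∩ (V : Set (Ω ≃ₐ[K] Ω))) U k) := by
        exact_mod_cast Nat.pos_of_ne_zero (hcmp k).1
      have h5 : (Nat.card (Ch p (Loc Ω T ∩ (V : Set (Ω ≃ₐ[K] Ω))) U k) : ℝ) ≤
          (Nat.card (LChars T U (p ^ k)) : ℝ) * ((p : ℝ) ^ m) ^ t := by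
        exact_mod_cast hsharp k
      have h6 := Real.log_le_log hN2 h5
      rw [Real.log_mul hN.ne' (by positivity), Real.log_pow, Real.log_pow] at h6
      calc _ ≤ _ := h6
        _ = _ := by ring
  have h3 : (0 : ℝ) ≤ (p : ℝ) ^ m := by positivity
  exact h1.trans (mul_le_mul_of_nonneg_left h2 h3)

end level

end Pool.Agent.Y194.MU
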